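import Pool.Agent.Y277.TH.Comb2

set_option autoImplicit false

namespace Pool.Agent.Y277.TH

open Set Cardinal

section

variable {W : Type} [LinearOrder W]

/-- the ladder system assembled from the levels -/
def LL (S : ℕ → Set W) (lad : ℕ → W → ℕ → W) (δ : W) : Set W :=
  {x | ∃ k, δ ∈ S k ∧ Ladder δ (lad k δ) ∧ ∃ n, lad k δ n = x}

theorem LL_lt {S : ℕ → Set W} {lad : ℕ → W → ℕ → W} : ∀ x, ∀ y ∈ LL S lad x, y < x := by
  rintro x y ⟨k, _, h2, n, rfl⟩
  exact h2.2.1 n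

theorem LL_eq {S : ℕ → Set W} {lad : ℕ → W → ℕ → W}
    (hdis : Pairwise (fun i j => Disjoint (S i) (S j))) {k : ℕ} {δ : W} (hδ : δ ∈ S k)
    {x : W} (hx : x ∈ LL S lad δ) : ∃ n, lad k δ n = x := by
  obtain ⟨k', h1, _, n, rfl⟩ := hx
  have : k' = k := by
    by_contra hne
    exact (Set.disjoint_left.1 (hdis hne)) h1 hδ
  subst this
  exact ⟨n, rfl⟩

theorem LL_fin {S : ℕ → Set W} {lad : ℕ → W → ℕ → W}
    (hdis : Pairwise (fun i j => Disjoint (S i) (S j))) :
    ∀ c δ, δ < c → (LL S lad c ∩ Iio δ).Finite := by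
  intro c δ hδ
  rcases (LL S lad c).eq_empty_or_nonempty with he | ⟨x, k, h1, h2, n, rfl⟩
  · rw [he]; simp
  · obtain ⟨m, hm⟩ := h2.2.2 δ hδ
    refine Set.Finite.subset ((Finset.range m).image (lad k c)).finite_toSet ?_
    rintro y ⟨hy1, hy2⟩
    obtain ⟨j, rfl⟩ := LL_eq hdis h1 hy1
    simp only [Finset.coe_image, Finset.coe_range, mem_image, mem_Iio]
    refine ⟨j, ?_, rfl⟩
    by_contra hcon
    push Not at hcon
    have := h2.1.monotone hcon
    exact absurd (lt_of_lt_of_le hm this) (not_lt.2 (le_of_lt hy2))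

/-- the chains -/
structure Chain (L : W → Set W) (f : W → W) (B : W → Finset W) (k : ℕ) (d : ℕ → W) : Prop where
  cl : ∀ i ≤ k, d i ∈ Cl f
  mem : ∀ i < k, d i ∈ L (d (i + 1))
  low : ∀ i < k, ∀ z ∈ L (d (i + 1)), z < d i → z < d 0
  bd : ∀ i, 1 ≤ i → i ≤ k → ∀ c ∈ B (d i), ∀ a, d 0 ≤ a → a < d i → ∀ x ≤ d i,
    Wk L a c x → Wk L a (d i) x

theorem exists_chain (hW : Good W) {S : ℕ → Set W} {lad : ℕ → W → ℕ → W}
    {G : ℕ → (W → W) → Set W} (hdis : Pairwise (fun i j => Disjoint (S i) (S j)))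
    (hG0 : ∀ f, G 0 f = Cl f) (hG : ∀ k f, G (k + 1) f = nextG (S k) (lad k) (G k) f)
    (f : W → W) (B : W → Finset W) (hB : ∀ δ ∈ Cl f, ∀ b ∈ B δ, δ < b) :
    ∀ (k : ℕ) (δ b : W), δ ∈ G k f → b < δ →
      ∃ d : ℕ → W, d k = δ ∧ b < d 0 ∧ Chain (LL S lad) f B k d := by
  classical
  intro k
  induction k with
  | zero =>
    intro δ b hδ hb
    rw [hG0] at hδ
    refine ⟨fun _ => δ, rfl, hb, ⟨fun i _ => hδ, fun i hi => (Nat.not_lt_zero i hi).elim,
      fun i hi => (Nat.not_lt_zero i hi).elim, fun i h1 h2 => ?_⟩⟩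
    omega
  | succ k ih =>
    intro δ b hδ hb
    rw [hG] at hδ
    obtain ⟨hS, hcl, hlad, hmem⟩ := hδ
    -- bounds for the finitely many elements of `B δ`
    have h1 : ∀ c, ∃ β, c ∈ B δ → β < δ ∧ ∀ a, β < a → a < δ → ∀ x ≤ δ,
        Wk (LL S lad) a c x → Wk (LL S lad) a δ x := by
      intro c
      by_cases hc : c ∈ B δ
      · obtain ⟨β, hβ, hβ'⟩ := Wk.bound hW LL_lt (LL_fin hdis) δ ⟨b, hb⟩ c (hB δ hcl c hc)
        exact ⟨β, fun _ => ⟨hβ, hβ'⟩⟩
      · exact ⟨b, fun h => (hc h).elim⟩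
    choose β hβ using h1
    let T : Finset W := insert b ((B δ).image β)
    have hTne : T.Nonempty := ⟨b, Finset.mem_insert_self _ _⟩
    let m := T.max' hTne
    have hm : m < δ := by
      have : m ∈ T := T.max'_mem hTne
      rcases Finset.mem_insert.1 this with h | h
      · rw [h]; exact hb
      · obtain ⟨c, hc, hc'⟩ := Finset.mem_image.1 h
        rw [← hc']
        exact (hβ c hc).1
    have hbm : b ≤ m := T.le_max' _ (Finset.mem_insert_self _ _)
    have hβm : ∀ c ∈ B δ, β c ≤ m := fun c hc =>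
      T.le_max' _ (Finset.mem_insert_of_mem (Finset.mem_image_of_mem β hc))
    obtain ⟨n, hn⟩ := hlad.2.2 m hm
    -- the new bound
    have h2 : ∃ b', m ≤ b' ∧ b' < lad k δ n ∧ ∀ j, j < n → lad k δ j ≤ b' := by
      rcases Nat.eq_zero_or_pos n with h0 | h0
      · subst h0
        exact ⟨m, le_refl _, hn, fun j hj => (Nat.not_lt_zero j hj).elim⟩
      · refine ⟨max m (lad k δ (n - 1)), le_max_left _ _, max_lt hn ?_, fun j hj => ?_⟩
        · exact hlad.1 (by omega)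
        · exact (hlad.1.monotone (by omega : j ≤ n - 1)).trans (le_max_right _ _)
    obtain ⟨b', hb1, hb2, hb3⟩ := h2
    obtain ⟨d, hd1, hd2, hd3⟩ := ih (lad k δ n) b' (hmem n) hb2
    let d' : ℕ → W := fun i => if i = k + 1 then δ else d i
    have hd'1 : ∀ i ≤ k, d' i = d i := by
      intro i hi
      have : i ≠ k + 1 := by omega
      simp [d', this]
    have hd'2 : d' (k + 1) = δ := by simp [d']
    have hd'0 : d' 0 = d 0 := hd'1 0 (Nat.zero_le _)
    refine ⟨d', hd'2, ?_, ⟨?_, ?_, ?_, ?_⟩⟩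
    · rw [hd'0]
      exact lt_of_le_of_lt (hbm.trans hb1) hd2
    · intro i hi
      rcases Nat.lt_or_ge k i with h | h
      · have : i = k + 1 := by omega
        rw [this, hd'2]; exact hcl
      · rw [hd'1 i h]; exact hd3.cl i h
    · intro i hi
      rcases Nat.lt_or_ge i k with h | h
      · rw [hd'1 i h.le, hd'1 (i + 1) h]
        exact hd3.mem i h
      · have : i = k := by omega
        subst this
        rw [hd'1 i (le_refl _), hd'2, hd1]
        exact ⟨i, hS, hlad, n, rfl⟩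
    · intro i hi z hz hzi
      rw [hd'0]
      rcases Nat.lt_or_ge i k with h | h
      · rw [hd'1 (i + 1) h] at hz
        rw [hd'1 i h.le] at hzi
        exact hd3.low i h z hz hzi
      · have : i = k := by omega
        subst this
        rw [hd'2] at hz
        rw [hd'1 i (le_refl _), hd1] at hzi
        obtain ⟨j, rfl⟩ := LL_eq hdis hS hz
        have hj : j < n := hlad.1.lt_iff_lt.1 hzi
        exact lt_of_le_of_lt (hb3 j hj) hd2
    · intro i hi1 hi2 c hc a ha1 ha2 x hx hw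
      rw [hd'0] at ha1
      rcases Nat.lt_or_ge k i with h | h
      · have : i = k + 1 := by omega
        subst this
        rw [hd'2] at hc ha2 hx ⊢
        refine (hβ c hc).2 a ?_ ha2 x hx hw
        exact lt_of_lt_of_le (lt_of_le_of_lt ((hβm c hc).trans hb1) hd2) ha1
      · rw [hd'1 i h] at hc ha2 hx ⊢
        exact hd3.bd i hi1 h c hc a ha1 ha2 x hx hw

theorem Chain.strict {L : W → Set W} (hL : ∀ x, ∀ y ∈ L x, y < x) {f : W → W}
    {B : W → Finset W} {k : ℕ} {d : ℕ → W} (h : Chain L f B k d) :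
    ∀ i j, i < j → j ≤ k → d i < d j := by
  intro i j hij hj
  induction j with
  | zero => omega
  | succ j ih =>
    have h1 : d j < d (j + 1) := hL _ _ (h.mem j (by omega))
    rcases Nat.lt_or_ge i j with h2 | h2
    · exact (ih h2 (by omega)).trans h1
    · have : i = j := by omega
      rw [this]; exact h1

theorem Chain.mono {L : W → Set W} (hL : ∀ x, ∀ y ∈ L x, y < x) {f : W → W}
    {B : W → Finset W} {k : ℕ} {d : ℕ → W} (h : Chain L f B k d) :
    ∀ i j, i ≤ j → j ≤ k → d i ≤ d j := by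
  intro i j hij hj
  rcases Nat.lt_or_ge i j with h2 | h2
  · exact (h.strict hL i j h2 hj).le
  · have : i = j := by omega
    rw [this]

theorem Chain.walk {L : W → Set W} (hL : ∀ x, ∀ y ∈ L x, y < x) {f : W → W}
    {B : W → Finset W} {k : ℕ} {d : ℕ → W} (h : Chain L f B k d) (a : W) (i0 : ℕ)
    (ha0 : d 0 ≤ a) (ha : a ≤ d i0) :
    ∀ j, i0 ≤ j → j ≤ k → Wk L a (d j) (d i0) := by
  intro j hj hjk
  induction j with
  | zero =>
    have : i0 = 0 := by omega
    subst this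
    exact Relation.ReflTransGen.refl
  | succ j ih =>
    rcases Nat.lt_or_ge j i0 with h2 | h2
    · have : i0 = j + 1 := by omega
      subst this
      exact Relation.ReflTransGen.refl
    · refine Relation.ReflTransGen.head ⟨h.mem j (by omega), ?_, ?_⟩ (ih h2 (by omega))
      · exact ha.trans (h.mono hL i0 j h2 (by omega))
      · intro z hz haz
        by_contra hcon
        push Not at hcon
        exact absurd (h.low j (by omega) z hz hcon) (not_lt.2 (ha0.trans haz))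

/-- no walk meets three of the sets `B (d i)` -/
theorem Chain.no_three {L : W → Set W} (hL : ∀ x, ∀ y ∈ L x, y < x) {f : W → W}
    {B : W → Finset W} (hB1 : ∀ δ ∈ Cl f, ∀ b ∈ B δ, δ < b)
    (hB2 : ∀ δ, ∀ δ' ∈ Cl f, δ < δ' → ∀ b ∈ B δ, b < δ')
    {k : ℕ} {d : ℕ → W} (h : Chain L f B k d) {a c : W}
    {i1 i2 i3 : ℕ} (h32 : i3 < i2) (h21 : i2 < i1) (h1k : i1 ≤ k) {c1 c2 c3 : W}
    (hc1 : c1 ∈ B (d i1)) (hc2 : c2 ∈ B (d i2)) (hc3 : c3 ∈ B (d i3))
    (hw1 : Wk L a c c1) (hw2 : Wk L a c c2) (ha3 : a ≤ c3) : False := by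
  have e1 : d i1 < c1 := hB1 _ (h.cl i1 h1k) _ hc1
  have e2 : d i2 < c2 := hB1 _ (h.cl i2 (by omega)) _ hc2
  have e3 : d i3 < c3 := hB1 _ (h.cl i3 (by omega)) _ hc3
  have e2' : c2 < d (i2 + 1) :=
    hB2 _ _ (h.cl (i2 + 1) (by omega)) (h.strict hL i2 (i2 + 1) (by omega) (by omega)) _ hc2
  have e3' : c3 < d (i3 + 1) :=
    hB2 _ _ (h.cl (i3 + 1) (by omega)) (h.strict hL i3 (i3 + 1) (by omega) (by omega)) _ hc3
  have m1 : d (i2 + 1) ≤ d i1 := h.mono hL _ _ (by omega) h1k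
  have m2 : d (i3 + 1) ≤ d i2 := h.mono hL _ _ (by omega) (by omega)
  have m0 : d 0 ≤ c3 := (h.mono hL 0 i3 (by omega) (by omega)).trans e3.le
  have c32 : c3 < c2 := (e3'.trans_le m2).trans e2
  have c21 : c2 < c1 := (e2'.trans_le m1).trans e1
  have w12 : Wk L a c1 c2 := by
    rcases hw1.total hw2 with h' | h'
    · exact h'
    · exact absurd (Wk.le hL h') (not_le.2 c21)
  have w12' : Wk L c3 c1 c2 := w12.raise hL ha3 c32.le
  have w3 : Wk L c3 (d i1) c2 :=
    h.bd i1 (by omega) h1k c1 hc1 c3 m0 ((c32.trans e2').trans_le m1) c2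
      (e2'.le.trans m1) w12'
  have w4 : Wk L c3 (d i1) (d (i2 + 1)) :=
    h.walk hL c3 (i2 + 1) m0 (c32.le.trans e2'.le) i1 (by omega) h1k
  have w5 : Wk L c3 (d (i2 + 1)) c2 := by
    rcases w4.total w3 with h' | h'
    · exact h'
    · exact absurd (Wk.le hL h') (not_le.2 e2')
  rcases Relation.ReflTransGen.cases_head w5 with h' | ⟨y, h1, h2⟩
  · exact absurd h' (ne_of_gt e2')
  · have hn : Nx L c3 (d (i2 + 1)) (d i2) := by
      refine ⟨h.mem i2 (by omega), e3'.le.trans m2, ?_⟩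
      intro z hz haz
      by_contra hcon
      push Not at hcon
      exact absurd (h.low i2 (by omega) z hz hcon) (not_lt.2 (m0.trans haz))
    have := h1.unique hn
    rw [this] at h2
    exact absurd (Wk.le hL h2) (not_le.2 e2)

/-- **The combinatorial theorem.** -/
theorem exists_family : ∃ (Γ : Type) (ℱ : Set (Finset Γ)),
    (∀ E ∈ ℱ, ∀ E', E' ⊆ E → E' ∈ ℱ) ∧ (∀ γ, {γ} ∈ ℱ) ∧
    ∀ (R : Γ → Γ → Prop), (∀ δ, {δ' | R δ δ'}.Countable) → (∀ δ', {δ | R δ δ'}.Countable) →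
      ∀ (B : Γ → Finset Γ), (∀ δ, ∀ b ∈ B δ, b ≠ δ ∧ R δ b) →
        ∀ k : ℕ, ∃ E ∈ ℱ, E.card = k + 1 ∧
          (∀ δ ∈ E, ∀ δ' ∈ E, δ ≠ δ' → Disjoint (B δ) (B δ')) ∧
          ∀ E' ∈ ℱ, ∀ T ⊆ E, (∀ δ ∈ T, ¬ Disjoint E' (B δ)) → T.card ≤ 2 := by
  classical
  obtain ⟨W, _, hW⟩ := exists_good
  obtain ⟨S, lad, G, hdis, hG0, hG, hGne⟩ := exists_guess hW
  refine ⟨W, {E | ∃ a c, ∀ x ∈ E, a ≤ x ∧ Wk (LL S lad) a c x}, ?_, ?_, ?_⟩
  · rintro E ⟨a, c, h⟩ E' hE'
    exact ⟨a, c, fun x hx => h x (hE' hx)⟩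
  · intro γ
    refine ⟨γ, γ, fun x hx => ?_⟩
    rw [Finset.mem_singleton] at hx
    subst hx
    exact ⟨le_refl _, Relation.ReflTransGen.refl⟩
  intro R hR1 hR2 B hB k
  have h1 : ∀ d, ∃ b, ∀ δ' ∈ ({δ' | R d δ'} ∪ {δ' | R δ' d}), δ' < b := fun d =>
    hW.bddCountable ((hR1 d).union (hR2 d))
  choose f hf using h1
  have hB1 : ∀ δ ∈ Cl f, ∀ b ∈ B δ, δ < b := by
    intro δ hδ b hb
    obtain ⟨h2, h3⟩ := hB δ b hb
    rcases lt_trichotomy b δ with h | h | h
    · have h4 := hδ b h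
      have h5 := hf b δ (Or.inr h3)
      exact absurd (h4.trans h5) (lt_irrefl _)
    · exact (h2 h).elim
    · exact h
  have hB2 : ∀ δ, ∀ δ' ∈ Cl f, δ < δ' → ∀ b ∈ B δ, b < δ' := by
    intro δ δ' hδ' hlt b hb
    exact (hf δ b (Or.inl (hB δ b hb).2)).trans (hδ' δ hlt)
  obtain ⟨δ, hδ⟩ := hGne (k + 1) f
  have hδ' := hδ
  rw [hG] at hδ'
  obtain ⟨b, hb⟩ : ∃ b, b < δ := ⟨_, hδ'.2.2.1.2.1 0⟩
  obtain ⟨d, hd1, hd2, hd⟩ := exists_chain hW hdis hG0 hG f B hB1 (k + 1) δ b hδ hb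
  have hL := LL_lt (S := S) (lad := lad)
  have hinj : Set.InjOn d (Finset.range (k + 1) : Set ℕ) := by
    intro i hi j hj hij
    simp only [Finset.coe_range, mem_Iio] at hi hj
    rcases lt_trichotomy i j with h | h | h
    · exact absurd hij (ne_of_lt (hd.strict hL i j h (by omega)))
    · exact h
    · exact absurd hij (ne_of_gt (hd.strict hL j i h (by omega)))
  refine ⟨(Finset.range (k + 1)).image d, ?_, ?_, ?_, ?_⟩
  · refine ⟨d 0, d k, fun x hx => ?_⟩
    obtain ⟨i, hi, rfl⟩ := Finset.mem_image.1 hx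
    rw [Finset.mem_range] at hi
    have : d 0 ≤ d i := hd.mono hL 0 i (by omega) (by omega)
    exact ⟨this, hd.walk hL (d 0) i (le_refl _) this k (by omega) (by omega)⟩
  · rw [Finset.card_image_of_injOn hinj, Finset.card_range]
  · have key : ∀ i j, i < j → j ≤ k → Disjoint (B (d i)) (B (d j)) := by
      intro i j hij hj
      rw [Finset.disjoint_left]
      intro x hx1 hx2
      have e1 : x < d j := hB2 _ _ (hd.cl j (by omega)) (hd.strict hL i j hij (by omega)) _ hx1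
      have e2 : d j < x := hB1 _ (hd.cl j (by omega)) _ hx2
      exact lt_irrefl _ (e1.trans e2)
    intro δ1 h1 δ2 h2 hne
    obtain ⟨i, hi, rfl⟩ := Finset.mem_image.1 h1
    obtain ⟨j, hj, rfl⟩ := Finset.mem_image.1 h2
    rw [Finset.mem_range] at hi hj
    rcases lt_trichotomy i j with h | h | h
    · exact key i j h (by omega)
    · subst h; exact (hne rfl).elim
    · exact (key j i h (by omega)).symm
  · rintro E' ⟨a, c, hE'⟩ T hT hT2
    by_contra hcon
    push Not at hcon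
    -- three indices
    have hidx : ∀ δ ∈ T, ∃ i, i ≤ k ∧ d i = δ := by
      intro δ hδT
      obtain ⟨i, hi, rfl⟩ := Finset.mem_image.1 (hT hδT)
      rw [Finset.mem_range] at hi
      exact ⟨i, by omega, rfl⟩
    obtain ⟨x, hx, y, hy, z, hz, hxy, hxz, hyz⟩ := Finset.two_lt_card.1 hcon
    -- general contradiction for ordered triples
    have key : ∀ i1 i2 i3, i3 < i2 → i2 < i1 → i1 ≤ k → d i1 ∈ T → d i2 ∈ T → d i3 ∈ T →
        False := by
      intro i1 i2 i3 h32 h21 h1k t1 t2 t3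
      have g : ∀ i, d i ∈ T → ∃ c' ∈ B (d i), a ≤ c' ∧ Wk (LL S lad) a c c' := by
        intro i hi
        obtain ⟨c', h1, h2⟩ := Finset.not_disjoint_iff.1 (hT2 _ hi)
        exact ⟨c', h2, hE' c' h1⟩
      obtain ⟨c1, p1, q1, r1⟩ := g i1 t1
      obtain ⟨c2, p2, q2, r2⟩ := g i2 t2
      obtain ⟨c3, p3, q3, r3⟩ := g i3 t3
      exact hd.no_three hL hB1 hB2 h32 h21 (by omega) p1 p2 p3 r1 r2 q3
    obtain ⟨i, hi, rfl⟩ := hidx x hx
    obtain ⟨j, hj, rfl⟩ := hidx y hy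
    obtain ⟨l, hl, rfl⟩ := hidx z hz
    have n1 : i ≠ j := fun h => hxy (by rw [h])
    have n2 : i ≠ l := fun h => hxz (by rw [h])
    have n3 : j ≠ l := fun h => hyz (by rw [h])
    rcases lt_or_gt_of_ne n1 with h1 | h1 <;> rcases lt_or_gt_of_ne n2 with h2 | h2 <;>
      rcases lt_or_gt_of_ne n3 with h3 | h3
    · exact key l j i h1 h3 hl hz hy hx
    · exact key j l i h2 h3 hj hy hz hx
    · omega
    · exact key j i l h2 h1 hj hy hx hz
    · exact key l i j h1 h2 hl hz hx hy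
    · omega
    · exact key i l j h3 h2 hi hx hz hy
    · exact key i j l h3 h1 hi hx hy hz

end

end Pool.Agent.Y277.TH
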