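import Pool.Agent.Y277.TH.Sp3
import Pool.Agent.Y277.TH.Comb3

set_option autoImplicit false

namespace Pool.Agent.Y277.TH

open Finset Filter Topology

section

variable {Γ : Type} [DecidableEq Γ] {ℱ : Set (Finset Γ)}

theorem norm_ey_sum (hsing : ∀ γ, {γ} ∈ ℱ) (E : Finset Γ) (c : Γ → ℝ) (C : ℝ) (hC : 0 ≤ C)
    (h : ∑ δ ∈ E, c δ ^ 2 ≤ C ^ 2) : ‖∑ δ ∈ E, c δ • ey hsing δ‖ ≤ C := by
  have h0 : ∑ δ ∈ E, c δ • ey hsing δ
      = Phi hsing (∑ δ ∈ E, Finsupp.single δ (c δ), 0) := by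
    have : (∑ δ ∈ E, Finsupp.single δ (c δ), (0 : Γ →₀ ℝ))
        = ∑ δ ∈ E, c δ • (Finsupp.single δ (1 : ℝ), (0 : Γ →₀ ℝ)) := by
      rw [Prod.ext_iff]
      simp [Prod.fst_sum, Prod.snd_sum]
    rw [this, map_sum]
    refine Finset.sum_congr rfl fun δ _ => ?_
    rw [map_smul]
    rfl
  rw [h0]
  set y : Γ →₀ ℝ := ∑ δ ∈ E, Finsupp.single δ (c δ) with hy
  have hyin : ∀ γ ∈ E, y γ = c γ := by
    intro γ hγ
    rw [hy, Finsupp.finsetSum_apply, Finset.sum_eq_single γ]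
    · simp
    · intro δ _ hne
      exact Finsupp.single_eq_of_ne hne.symm
    · intro h; exact absurd hγ h
  have hyout : ∀ γ, γ ∉ E → y γ = 0 := by
    intro γ hγ
    rw [hy, Finsupp.finsetSum_apply]
    refine Finset.sum_eq_zero fun δ hδ => ?_
    exact Finsupp.single_eq_of_ne (fun h => hγ (h ▸ hδ))
  refine Phi_norm_le hsing _ _ _ hC ?_ (by simp; positivity)
  intro i
  have h1 : pr y (0 : Γ →₀ ℝ) i = ∑ γ ∈ i.F ∩ E, c γ * i.w γ := by
    unfold pr
    rw [← Finset.sum_subset (Finset.inter_subset_left (s₁ := i.F) (s₂ := E))]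
    · refine Finset.sum_congr rfl fun γ hγ => ?_
      rw [hyin γ (Finset.mem_inter.1 hγ).2]
      simp
    · intro γ h2 h3
      have : γ ∉ E := fun h => h3 (Finset.mem_inter.2 ⟨h2, h⟩)
      rw [hyout γ this]; simp
  rw [h1]
  refine abs_le_of_sq_le_sq ?_ hC
  refine (Finset.sum_mul_sq_le_sq_mul_sq _ _ _).trans ?_
  calc (∑ γ ∈ i.F ∩ E, c γ ^ 2) * ∑ γ ∈ i.F ∩ E, i.w γ ^ 2 ≤ C ^ 2 * 1 := by
        refine mul_le_mul ?_ ?_ (Finset.sum_nonneg fun _ _ => sq_nonneg _) (sq_nonneg _)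
        · exact (Finset.sum_le_sum_of_subset_of_nonneg Finset.inter_subset_right
            fun _ _ _ => sq_nonneg _).trans h
        · exact (Finset.sum_le_sum_of_subset_of_nonneg Finset.inter_subset_left
            fun _ _ _ => sq_nonneg _).trans i.adm.sq_le
    _ = C ^ 2 := mul_one _

/-- lower bound on members of `ℱ` -/
theorem norm_flat_ge (hsing : ∀ γ, {γ} ∈ ℱ) {E : Finset Γ} (hE : E ∈ ℱ) (hne : E.Nonempty)
    (c : Γ → ℝ) (hc : ∀ γ, 1 ≤ c γ) :
    1 / 2 * Real.log E.card ≤ ‖∑ δ ∈ E, (c δ / Real.sqrt E.card) • ex hsing δ‖ := by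
  have hN : (0 : ℝ) < E.card := by exact_mod_cast hne.card_pos
  have hsq : 0 < Real.sqrt E.card := Real.sqrt_pos.2 hN
  have h0 : ∑ δ ∈ E, (c δ / Real.sqrt E.card) • ex hsing δ
      = Phi hsing (0, ∑ δ ∈ E, Finsupp.single δ (c δ / Real.sqrt E.card)) := by
    have : ((0 : Γ →₀ ℝ), ∑ δ ∈ E, Finsupp.single δ (c δ / Real.sqrt E.card))
        = ∑ δ ∈ E, (c δ / Real.sqrt E.card) • ((0 : Γ →₀ ℝ), Finsupp.single δ (1 : ℝ)) := by
      rw [Prod.ext_iff]
      simp [Prod.fst_sum, Prod.snd_sum]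
    rw [this, map_sum]
    refine Finset.sum_congr rfl fun δ _ => ?_
    rw [map_smul]
    rfl
  rw [h0]
  set x : Γ →₀ ℝ := ∑ δ ∈ E, Finsupp.single δ (c δ / Real.sqrt E.card) with hx
  have hxin : ∀ γ ∈ E, x γ = c γ / Real.sqrt E.card := by
    intro γ hγ
    rw [hx, Finsupp.finsetSum_apply, Finset.sum_eq_single γ]
    · simp
    · intro δ _ hne
      exact Finsupp.single_eq_of_ne hne.symm
    · intro h; exact absurd hγ h
  have hadm := adm_flat hE hne (fun γ => 1 / c γ) (fun γ => by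
    have h1 : 0 < c γ := lt_of_lt_of_le one_pos (hc γ)
    rw [abs_of_nonneg (by positivity), div_le_one h1]
    exact hc γ)
  have h1 := pr_le_norm hsing (0 : Γ →₀ ℝ) x ⟨E, _, _, hadm⟩
  refine le_trans ?_ h1
  refine le_trans (le_of_eq ?_) (le_abs_self _)
  unfold pr
  have h2 : ∀ γ ∈ E, ((0 : Γ →₀ ℝ) γ - x γ * -(1 / 2 * Real.log E.card))
      * (1 / c γ / Real.sqrt E.card) = (1 / 2 * Real.log E.card) / E.card := by
    intro γ hγ
    rw [hxin γ hγ]
    have h3 : c γ ≠ 0 := (lt_of_lt_of_le one_pos (hc γ)).ne'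
    have h4 : (E.card : ℝ) = Real.sqrt E.card * Real.sqrt E.card := (Real.mul_self_sqrt hN.le).symm
    simp only [Finsupp.coe_zero, Pi.zero_apply, zero_sub, mul_neg, neg_neg]
    have h5 : c γ / Real.sqrt E.card * (1 / 2 * Real.log E.card) * (1 / c γ / Real.sqrt E.card)
        = (1 / 2 * Real.log E.card) * (c γ * (1 / c γ)) / (Real.sqrt E.card * Real.sqrt E.card) := by
      ring
    rw [h5, ← h4, mul_one_div_cancel h3, mul_one]
  show _ = ∑ γ ∈ E, ((0 : Γ →₀ ℝ) γ - x γ * -(1 / 2 * Real.log E.card))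
      * (1 / c γ / Real.sqrt E.card)
  rw [Finset.sum_congr rfl h2, Finset.sum_const, nsmul_eq_mul, mul_div_cancel₀ _ hN.ne']

/-- The main theorem: no complex structure. -/
theorem no_complex (hsing : ∀ γ, {γ} ∈ ℱ) (hsub : ∀ E ∈ ℱ, ∀ E', E' ⊆ E → E' ∈ ℱ)
    (hemp : ∅ ∈ ℱ)
    (hfam : ∀ (R : Γ → Γ → Prop), (∀ δ, {δ' | R δ δ'}.Countable) →
      (∀ δ', {δ | R δ δ'}.Countable) →
      ∀ (B : Γ → Finset Γ), (∀ δ, ∀ b ∈ B δ, b ≠ δ ∧ R δ b) →
        ∀ k : ℕ, ∃ E ∈ ℱ, E.card = k + 1 ∧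
          (∀ δ ∈ E, ∀ δ' ∈ E, δ ≠ δ' → Disjoint (B δ) (B δ')) ∧
          ∀ E' ∈ ℱ, ∀ T ⊆ E, (∀ δ ∈ T, ¬ Disjoint E' (B δ)) → T.card ≤ 2) :
    ¬ ∃ J : XX hsing →L[ℝ] XX hsing, J.comp J = -(ContinuousLinearMap.id ℝ (XX hsing)) := by
  classical
  rintro ⟨J, hJ⟩
  have hJJ : ∀ z, J (J z) = -z := fun z => by
    have := congrArg (fun T : XX hsing →L[ℝ] XX hsing => T z) hJ
    simpa using this
  let K : ℝ := ‖J‖
  have hK : 0 ≤ K := norm_nonneg J
  let g : Γ → XX hsing := fun δ => J (exX hsing δ)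
  have hg : ∀ δ, ‖g δ‖ ≤ K := by
    intro δ
    have h1 : ‖exX hsing δ‖ ≤ 1 := ex_norm_le hsing δ
    calc ‖J (exX hsing δ)‖ ≤ ‖J‖ * ‖exX hsing δ‖ := J.le_opNorm _
      _ ≤ K * 1 := mul_le_mul_of_nonneg_left h1 hK
      _ = K := mul_one _
  let lam : Γ → ℝ := fun δ => cx hsing δ (g δ)
  let mu : Γ → ℝ := fun δ => cy hsing δ (g δ)
  have hlam : ∀ δ, |lam δ| ≤ K := fun δ => (cx_le hsing δ _).trans (hg δ)
  have hmu : ∀ δ, |mu δ| ≤ K := fun δ => (cy_le hsing δ _).trans (hg δ)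
  let h : Γ → XX hsing := fun δ => g δ - lam δ • exX hsing δ - mu δ • eyX hsing δ
  have hh : ∀ δ, ‖h δ‖ ≤ 3 * K := by
    intro δ
    have h1 : ‖exX hsing δ‖ ≤ 1 := ex_norm_le hsing δ
    have h2 : ‖eyX hsing δ‖ ≤ 1 := ey_norm_le hsing δ
    calc ‖h δ‖ ≤ ‖g δ - lam δ • exX hsing δ‖ + ‖mu δ • eyX hsing δ‖ := norm_sub_le _ _
      _ ≤ ‖g δ‖ + ‖lam δ • exX hsing δ‖ + ‖mu δ • eyX hsing δ‖ := by
          gcongr; exact norm_sub_le _ _
      _ ≤ K + K * 1 + K * 1 := by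
          rw [norm_smul, norm_smul]
          refine add_le_add (add_le_add (hg δ) ?_) ?_
          · exact mul_le_mul (hlam δ) h1 (norm_nonneg _) hK
          · exact mul_le_mul (hmu δ) h2 (norm_nonneg _) hK
      _ = 3 * K := by ring
  -- coordinates of `h δ`
  have hcoe : ∀ δ, (h δ : ZZ ℱ) = (g δ : ZZ ℱ) - lam δ • ex hsing δ - mu δ • ey hsing δ :=
    fun δ => rfl
  have hcx : ∀ δ γ, cx hsing γ (h δ) = cx hsing γ (g δ) - if γ = δ then lam δ else 0 := by
    intro δ γ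
    rw [hcoe, map_sub, map_sub, map_smul, map_smul, ex, ey, cx_Phi, cx_Phi]
    by_cases hγ : γ = δ
    · subst hγ; simp
    · rw [if_neg hγ]
      simp [Finsupp.single_eq_of_ne hγ]
  have hcy : ∀ δ γ, cy hsing γ (h δ) = cy hsing γ (g δ) - if γ = δ then mu δ else 0 := by
    intro δ γ
    rw [hcoe, map_sub, map_sub, map_smul, map_smul, ex, ey, cy_Phi, cy_Phi]
    by_cases hγ : γ = δ
    · subst hγ; simp
    · rw [if_neg hγ]
      simp [Finsupp.single_eq_of_ne hγ]
  let R : Γ → Γ → Prop := fun δ γ => cx hsing γ (g δ) ≠ 0 ∨ cy hsing γ (g δ) ≠ 0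
  have hR1 : ∀ δ, {γ | R δ γ}.Countable := fun δ => countable_support hsing (g δ)
  have hR2 : ∀ γ, {δ | R δ γ}.Countable := by
    intro γ
    have h1 := countable_functional hsing (((cx hsing γ).comp (XX hsing).subtypeL).comp J)
    have h2 := countable_functional hsing (((cy hsing γ).comp (XX hsing).subtypeL).comp J)
    refine (h1.union h2).mono ?_
    rintro δ (hδ | hδ)
    · exact Or.inl hδ
    · exact Or.inr hδ
  -- the size of the chain
  let D : ℝ := K + (2 * (3 * K + 1) + 1)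
  have hD : 0 ≤ D := by positivity
  obtain ⟨k, hk⟩ := exists_nat_gt (Real.exp (4 * K * D))
  let N : ℝ := (k : ℝ) + 1
  have hN1 : 1 ≤ N := by
    have : (0 : ℝ) ≤ k := Nat.cast_nonneg k
    show 1 ≤ (k : ℝ) + 1
    linarith
  have hN0 : 0 < N := lt_of_lt_of_le one_pos hN1
  have hsN : 0 < Real.sqrt N := Real.sqrt_pos.2 hN0
  have hlog : 4 * K * D < Real.log N := by
    rw [Real.lt_log_iff_exp_lt hN0]
    show _ < (k : ℝ) + 1
    linarith
  -- finitely supported approximations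
  have happ : ∀ δ, ∃ p : (Γ →₀ ℝ) × (Γ →₀ ℝ),
      (∀ γ, γ ∉ {γ | γ ≠ δ ∧ R δ γ} → p.1 γ = 0 ∧ p.2 γ = 0) ∧
      ‖(h δ : ZZ ℱ) - Phi hsing p‖ ≤ 1 / N := by
    intro δ
    refine exists_approx_supp hsing (h δ) _ ?_ _ (by positivity)
    intro γ hγ
    rw [hcx, hcy]
    by_cases hγδ : γ = δ
    · subst hγδ
      simp [lam, mu]
    · rw [if_neg hγδ, if_neg hγδ]
      have h1 : ¬ R δ γ := fun hR => hγ ⟨hγδ, hR⟩
      simp only [R, not_or, not_not] at h1
      rw [h1.1, h1.2]; simp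
  choose p hp1 hp2 using happ
  let B : Γ → Finset Γ := fun δ => (p δ).1.support ∪ (p δ).2.support
  have hB : ∀ δ, ∀ b ∈ B δ, b ≠ δ ∧ R δ b := by
    intro δ b hb
    by_contra hcon
    have h1 := hp1 δ b hcon
    rcases Finset.mem_union.1 hb with h2 | h2
    · exact (Finsupp.mem_support_iff.1 h2) h1.1
    · exact (Finsupp.mem_support_iff.1 h2) h1.2
  have hpB : ∀ δ γ, γ ∉ B δ → (p δ).1 γ = 0 ∧ (p δ).2 γ = 0 := by
    intro δ γ hγ
    rw [Finset.mem_union, not_or] at hγ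
    exact ⟨Finsupp.notMem_support_iff.1 hγ.1, Finsupp.notMem_support_iff.1 hγ.2⟩
  obtain ⟨E, hE, hcard, hdis, hhit⟩ := hfam R hR1 hR2 B hB k
  have hEne : E.Nonempty := by
    rw [← Finset.card_pos, hcard]; omega
  have hEN : (E.card : ℝ) = N := by rw [hcard]; push_cast; rfl
  have hpn : ∀ δ, ‖Phi hsing (p δ)‖ ≤ 3 * K + 1 := by
    intro δ
    have h1 : ‖(h δ : ZZ ℱ)‖ ≤ 3 * K := hh δ
    have h2 : 1 / N ≤ 1 := by
      rw [div_le_one hN0]; exact hN1
    calc ‖Phi hsing (p δ)‖ = ‖(h δ : ZZ ℱ) - ((h δ : ZZ ℱ) - Phi hsing (p δ))‖ := by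
          rw [sub_sub_cancel]
      _ ≤ ‖(h δ : ZZ ℱ)‖ + ‖(h δ : ZZ ℱ) - Phi hsing (p δ)‖ := norm_sub_le _ _
      _ ≤ 3 * K + 1 := add_le_add h1 ((hp2 δ).trans h2)
  -- the key estimate
  have key : ∀ (a : Γ → ℝ) (A : ℝ), 0 ≤ A → (∀ δ, |a δ| ≤ A / Real.sqrt N) →
      ‖J (∑ δ ∈ E, a δ • exX hsing δ) - ∑ δ ∈ E, (a δ * lam δ) • exX hsing δ‖ ≤ A * D := by
    intro a A hA ha
    have h1 : J (∑ δ ∈ E, a δ • exX hsing δ) - ∑ δ ∈ E, (a δ * lam δ) • exX hsing δ
        = ∑ δ ∈ E, (a δ * mu δ) • eyX hsing δ + ∑ δ ∈ E, a δ • h δ := by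
      rw [map_sum, ← Finset.sum_sub_distrib, ← Finset.sum_add_distrib]
      refine Finset.sum_congr rfl fun δ _ => ?_
      rw [map_smul]
      show a δ • g δ - _ = _ + a δ • (g δ - lam δ • exX hsing δ - mu δ • eyX hsing δ)
      rw [smul_sub, smul_sub, smul_smul, smul_smul]
      abel
    have hasq : ∀ δ, a δ ^ 2 ≤ A ^ 2 / N := by
      intro δ
      rw [← sq_abs]
      have := pow_le_pow_left₀ (abs_nonneg _) (ha δ) 2
      rwa [div_pow, Real.sq_sqrt hN0.le] at this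
    have h2 : ‖∑ δ ∈ E, (a δ * mu δ) • eyX hsing δ‖ ≤ A * K := by
      have h3 : ((∑ δ ∈ E, (a δ * mu δ) • eyX hsing δ : XX hsing) : ZZ ℱ)
          = ∑ δ ∈ E, (a δ * mu δ) • ey hsing δ := by
        simp [eyX]
      show ‖((∑ δ ∈ E, (a δ * mu δ) • eyX hsing δ : XX hsing) : ZZ ℱ)‖ ≤ A * K
      rw [h3]
      refine norm_ey_sum hsing E _ _ (mul_nonneg hA hK) ?_
      calc ∑ δ ∈ E, (a δ * mu δ) ^ 2 ≤ ∑ δ ∈ E, (A ^ 2 / N) * K ^ 2 := by
            refine Finset.sum_le_sum fun δ _ => ?_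
            rw [mul_pow]
            refine mul_le_mul (hasq δ) ?_ (sq_nonneg _) (by positivity)
            rw [← sq_abs]
            exact pow_le_pow_left₀ (abs_nonneg _) (hmu δ) 2
        _ = (A * K) ^ 2 := by
            rw [Finset.sum_const, nsmul_eq_mul, hEN]
            field_simp
    have h4 : ‖∑ δ ∈ E, a δ • h δ‖ ≤ A * (2 * (3 * K + 1) + 1) := by
      have h5 : ((∑ δ ∈ E, a δ • h δ : XX hsing) : ZZ ℱ)
          = ∑ δ ∈ E, Phi hsing (a δ • p δ) + ∑ δ ∈ E, a δ • ((h δ : ZZ ℱ) - Phi hsing (p δ)) := by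
        rw [← Finset.sum_add_distrib]
        rw [AddSubmonoidClass.coe_finsetSum]
        refine Finset.sum_congr rfl fun δ _ => ?_
        have h5' : ((a δ • h δ : XX hsing) : ZZ ℱ) = a δ • (h δ : ZZ ℱ) := rfl
        rw [h5', map_smul, smul_sub (a δ) (h δ : ZZ ℱ) (Phi hsing (p δ))]
        abel
      show ‖((∑ δ ∈ E, a δ • h δ : XX hsing) : ZZ ℱ)‖ ≤ _
      rw [h5]
      refine (norm_add_le _ _).trans ?_
      have h6 : ‖∑ δ ∈ E, Phi hsing (a δ • p δ)‖ ≤ A * (2 * (3 * K + 1)) := by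
        have h7 : ∑ δ ∈ E, Phi hsing (a δ • p δ)
            = ∑ δ : E, Phi hsing (a δ • p δ) := (Finset.sum_coe_sort E _).symm
        rw [h7]
        have h8 := norm_blocks hsing hsub hemp (ι := E) (fun δ => B δ)
          (fun δ δ' hne => hdis δ δ.2 δ' δ'.2 (fun hh => hne (Subtype.ext hh)))
          (by
            intro E' hE'
            have h9 := hhit E' hE'
              ((univ.filter fun δ : E => ¬ Disjoint E' (B δ)).map (Function.Embedding.subtype _))
              (by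
                intro δ hδ
                obtain ⟨δ', _, rfl⟩ := Finset.mem_map.1 hδ
                exact δ'.2)
              (by
                intro δ hδ
                obtain ⟨δ', hδ', rfl⟩ := Finset.mem_map.1 hδ
                exact (Finset.mem_filter.1 hδ').2)
            rwa [Finset.card_map] at h9)
          (fun δ => a δ • p δ) (fun δ γ hγ => by
            obtain ⟨h10, h11⟩ := hpB δ γ hγ
            constructor
            · show a δ * (p δ).1 γ = 0
              rw [h10, mul_zero]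
            · show a δ * (p δ).2 γ = 0
              rw [h11, mul_zero])
        refine h8.trans ?_
        have h12 : ∑ δ : E, ‖Phi hsing (a δ • p δ)‖ ^ 2 ≤ (A * (3 * K + 1)) ^ 2 := by
          calc ∑ δ : E, ‖Phi hsing (a δ • p δ)‖ ^ 2
              ≤ ∑ δ : E, (A ^ 2 / N) * (3 * K + 1) ^ 2 := by
                refine Finset.sum_le_sum fun δ _ => ?_
                rw [map_smul, norm_smul, mul_pow, Real.norm_eq_abs, sq_abs]
                exact mul_le_mul (hasq δ) (pow_le_pow_left₀ (norm_nonneg _) (hpn δ) 2)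
                  (sq_nonneg _) (by positivity)
            _ = (A * (3 * K + 1)) ^ 2 := by
                rw [Finset.sum_const, nsmul_eq_mul, Finset.card_univ, Fintype.card_coe, hEN]
                field_simp
        have h13 : Real.sqrt (∑ δ : E, ‖Phi hsing (a δ • p δ)‖ ^ 2) ≤ A * (3 * K + 1) := by
          rw [Real.sqrt_le_left (by positivity)]
          exact h12
        nlinarith
      have h14 : ‖∑ δ ∈ E, a δ • ((h δ : ZZ ℱ) - Phi hsing (p δ))‖ ≤ A := by
        refine (norm_sum_le _ _).trans ?_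
        calc ∑ δ ∈ E, ‖a δ • ((h δ : ZZ ℱ) - Phi hsing (p δ))‖
            ≤ ∑ δ ∈ E, (A / Real.sqrt N) * (1 / N) := by
              refine Finset.sum_le_sum fun δ _ => ?_
              rw [norm_smul, Real.norm_eq_abs]
              exact mul_le_mul (ha δ) (hp2 δ) (norm_nonneg _) (by positivity)
          _ = A / Real.sqrt N := by
              rw [Finset.sum_const, nsmul_eq_mul, hEN]
              field_simp
          _ ≤ A := by
              rw [div_le_iff₀ hsN]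
              have : 1 ≤ Real.sqrt N := by
                rw [Real.one_le_sqrt]; exact hN1
              nlinarith
      linarith
    rw [h1]
    refine (norm_add_le _ _).trans ?_
    calc _ ≤ A * K + A * (2 * (3 * K + 1) + 1) := add_le_add h2 h4
      _ = A * D := by ring
  -- conclusion
  let x : XX hsing := ∑ δ ∈ E, (1 / Real.sqrt N) • exX hsing δ
  let x1 : XX hsing := ∑ δ ∈ E, (1 / Real.sqrt N * lam δ) • exX hsing δ
  let x2 : XX hsing := ∑ δ ∈ E, (1 / Real.sqrt N * lam δ * lam δ) • exX hsing δ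
  have e1 : ‖J x - x1‖ ≤ 1 * D := by
    refine key (fun _ => 1 / Real.sqrt N) 1 zero_le_one fun δ => ?_
    rw [abs_of_nonneg (by positivity)]
  have e2 : ‖J x1 - x2‖ ≤ K * D := by
    refine key (fun δ => 1 / Real.sqrt N * lam δ) K hK fun δ => ?_
    rw [abs_mul, abs_of_nonneg (by positivity)]
    rw [one_div, div_eq_mul_inv, mul_comm]
    exact mul_le_mul_of_nonneg_right (hlam δ) (by positivity)
  have e3 : ‖x + x2‖ ≤ 2 * K * D := by
    have h1 : x + x2 = -(J (J x - x1) + (J x1 - x2)) := by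
      rw [map_sub, hJJ]
      abel
    rw [h1, norm_neg]
    refine (norm_add_le _ _).trans ?_
    have h2 : ‖J (J x - x1)‖ ≤ K * (1 * D) :=
      (J.le_opNorm _).trans (mul_le_mul_of_nonneg_left e1 hK)
    linarith
  have e4 : 1 / 2 * Real.log N ≤ ‖x + x2‖ := by
    have h1 := norm_flat_ge hsing hE hEne (fun δ => 1 + lam δ * lam δ) (fun δ => by
      have := mul_self_nonneg (lam δ)
      linarith)
    rw [hEN] at h1
    refine h1.trans (le_of_eq ?_)
    show _ = ‖((x + x2 : XX hsing) : ZZ ℱ)‖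
    congr 1
    have h2 : x + x2 = ∑ δ ∈ E, ((1 + lam δ * lam δ) / Real.sqrt N) • exX hsing δ := by
      rw [← Finset.sum_add_distrib]
      refine Finset.sum_congr rfl fun δ _ => ?_
      rw [← add_smul]
      congr 1
      ring
    rw [h2]
    simp [exX]
  linarith

end

/-- **There is a twisted Hilbert space without complex structure.** -/
theorem main :
    ∃ (X : Type) (_ : NormedAddCommGroup X) (_ : NormedSpace ℝ X) (_ : CompleteSpace X)
      (Y : Submodule ℝ X),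
      IsClosed (Y : Set X) ∧
      ¬ FiniteDimensional ℝ X ∧
      (∃ (H : Type) (_ : NormedAddCommGroup H) (_ : InnerProductSpace ℝ H) (_ : CompleteSpace H),
        Nonempty (Y ≃L[ℝ] H)) ∧
      (∃ (H' : Type) (_ : NormedAddCommGroup H') (_ : InnerProductSpace ℝ H') (_ : CompleteSpace H'),
        Nonempty ((X ⧸ Y) ≃L[ℝ] H')) ∧
      ¬ ∃ J : X →L[ℝ] X, J.comp J = -(ContinuousLinearMap.id ℝ X) := by
  classical
  obtain ⟨Γ, ℱ, hsub, hsing, hfam⟩ := exists_family
  have hemp : (∅ : Finset Γ) ∈ ℱ := by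
    obtain ⟨E, hE, _⟩ := hfam (fun _ _ => False) (fun _ => by simp) (fun _ => by simp)
      (fun _ => ∅) (fun _ b hb => absurd hb (Finset.notMem_empty b)) 0
    exact hsub E hE _ (Finset.empty_subset _)
  refine ⟨XX hsing, inferInstance, inferInstance, inferInstance, YY hsing, YY_closed hsing, ?_,
    ⟨H2 Γ, inferInstance, inferInstance, inferInstance, equivY hsing⟩,
    ⟨H2 Γ, inferInstance, inferInstance, inferInstance, equivQ hsing⟩,
    no_complex hsing hsub hemp hfam⟩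
  intro hfd
  obtain ⟨E, _, hcard, _⟩ := hfam (fun _ _ => False) (fun _ => by simp) (fun _ => by simp)
    (fun _ => ∅) (fun _ b hb => absurd hb (Finset.notMem_empty b)) (Module.finrank ℝ (XX hsing))
  let f : XX hsing →ₗ[ℝ] (E → ℝ) :=
    LinearMap.pi fun γ : E => ((cx hsing (γ : Γ)).comp (XX hsing).subtypeL : XX hsing →ₗ[ℝ] ℝ)
  have hf : Function.Surjective f := by
    intro v
    refine ⟨∑ δ : E, v δ • exX hsing (δ : Γ), ?_⟩
    funext γ
    have h1 : f (∑ δ : E, v δ • exX hsing (δ : Γ)) γ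
        = ∑ δ : E, v δ * cx hsing (γ : Γ) (ex hsing (δ : Γ)) := by
      rw [map_sum, Finset.sum_apply]
      refine Finset.sum_congr rfl fun δ _ => ?_
      rw [map_smul]
      rfl
    rw [h1, Finset.sum_eq_single γ]
    · rw [ex, cx_Phi]; simp
    · intro δ _ hne
      have : (γ : Γ) ≠ δ := fun h => hne (Subtype.ext h.symm)
      rw [ex, cx_Phi]
      simp [Finsupp.single_eq_of_ne this]
    · intro h; exact absurd (Finset.mem_univ _) h
  have h2 := LinearMap.finrank_le_finrank_of_surjective hf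
  rw [Module.finrank_fintype_fun_eq_card, Fintype.card_coe, hcard] at h2
  omega

end Pool.Agent.Y277.TH
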