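import Mathlib

set_option autoImplicit false

namespace Pool.Agent.Y277.TH

open Set Cardinal

section Order

variable {W : Type} [LinearOrder W]

/-- points closed under `f` -/
def Cl (f : W → W) : Set W := {δ | ∀ d < δ, f d < δ}

/-- `s` is a strictly increasing cofinal sequence in `δ` -/
def Ladder (δ : W) (s : ℕ → W) : Prop :=
  StrictMono s ∧ (∀ n, s n < δ) ∧ ∀ b < δ, ∃ n, b < s n

/-- `A` meets every club in points of countable cofinality -/
def Pos (A : Set W) : Prop := ∀ f : W → W, ∃ δ ∈ A, δ ∈ Cl f ∧ ∃ s, Ladder δ s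

/-- the standing hypotheses: order type `𝔠⁺` -/
structure Good (W : Type) [LinearOrder W] : Prop where
  wf : WellFoundedLT W
  ne : Nonempty W
  small : ∀ δ : W, #(Iio δ) ≤ 𝔠
  bdd : ∀ g : ℝ → W, ∃ b, ∀ r, g r < b

theorem exists_good : ∃ (W : Type) (_ : LinearOrder W), Good W := by
  let c : Cardinal.{0} := Order.succ 𝔠
  let W : Type := c.ord.ToType
  have hW : #W = Order.succ 𝔠 := by simp [W, c]
  have hsmall : ∀ δ : W, #(Iio δ) ≤ 𝔠 := by
    intro δ
    have h := Cardinal.mk_Iio_toType_ord_lt (c := c) δ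
    exact Order.lt_succ_iff.1 h
  have hne : Nonempty W := by
    rw [← Cardinal.mk_ne_zero_iff, hW]
    exact (Order.succ_ne_bot 𝔠)
  refine ⟨W, inferInstance, ⟨inferInstance, hne, hsmall, ?_⟩⟩
  intro g
  by_contra hcon
  push Not at hcon
  have hcov : (⋃ r : ℝ, Iic (g r)) = (univ : Set W) := by
    ext b
    simp only [mem_iUnion, mem_Iic, mem_univ, iff_true]
    exact hcon b
  have hIic : ∀ x : W, #(Iic x) ≤ 𝔠 := by
    intro x
    have : (Iic x : Set W) = Iio x ∪ {x} := by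
      ext y; simp [le_iff_lt_or_eq]
    rw [this]
    refine (Cardinal.mk_union_le _ _).trans ?_
    refine (add_le_add (hsmall x) (le_of_eq (Cardinal.mk_singleton x))).trans ?_
    exact le_of_eq (Cardinal.add_one_eq Cardinal.aleph0_le_continuum)
  have h1 : #(univ : Set W) ≤ 𝔠 := by
    rw [← hcov]
    refine (Cardinal.mk_iUnion_le_sum_mk).trans ?_
    refine (Cardinal.sum_le_sum _ (fun _ => 𝔠) (fun r => hIic (g r))).trans ?_
    rw [Cardinal.sum_const', Cardinal.mk_real, Cardinal.continuum_mul_self]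
  rw [Cardinal.mk_univ, hW] at h1
  exact absurd h1 (not_le.2 (Order.lt_succ 𝔠))

variable (hW : Good W)

include hW

theorem Good.bdd' {ι : Type} (hι : #ι ≤ 𝔠) (g : ι → W) : ∃ b, ∀ i, g i < b := by
  classical
  rcases isEmpty_or_nonempty ι with h | h
  · obtain ⟨b⟩ := hW.ne
    exact ⟨b, fun i => (h.false i).elim⟩
  · have : #ι ≤ #ℝ := by rwa [Cardinal.mk_real]
    obtain ⟨e⟩ := Cardinal.le_def _ _ |>.1 this
    obtain ⟨b, hb⟩ := hW.bdd (fun r => g (Function.invFun e r))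
    refine ⟨b, fun i => ?_⟩
    have := hb (e i)
    rwa [Function.leftInverse_invFun e.injective i] at this

theorem Good.small' (δ : W) : #(Iic δ) ≤ 𝔠 := by
  have : (Iic δ : Set W) = Iio δ ∪ {δ} := by
    ext y; simp [le_iff_lt_or_eq]
  rw [this]
  refine (Cardinal.mk_union_le _ _).trans ?_
  refine (add_le_add (hW.small δ) (le_of_eq (Cardinal.mk_singleton δ))).trans ?_
  exact le_of_eq (Cardinal.add_one_eq Cardinal.aleph0_le_continuum)

theorem Good.bddSet {A : Set W} (hA : #A ≤ 𝔠) : ∃ b, ∀ a ∈ A, a < b := by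
  obtain ⟨b, hb⟩ := hW.bdd' hA (fun a : A => (a : W))
  exact ⟨b, fun a ha => hb ⟨a, ha⟩⟩

theorem Good.bddCountable {A : Set W} (hA : A.Countable) : ∃ b, ∀ a ∈ A, a < b :=
  hW.bddSet (((Cardinal.le_aleph0_iff_set_countable).2 hA).trans Cardinal.aleph0_le_continuum)

/-- above any point there are closed points of countable cofinality -/
theorem Good.exists_closed (α : W) (f : W → W) :
    ∃ δ, α < δ ∧ δ ∈ Cl f ∧ ∃ s, Ladder δ s := by
  classical
  have hwf := hW.wf
  have h1 : ∀ d : W, ∃ e, d < e ∧ ∀ d' ≤ d, f d' < e := by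
    intro d
    obtain ⟨b, hb⟩ := hW.bdd' (hW.small' d) (fun x : Iic d => max d (f x))
    exact ⟨b, lt_of_le_of_lt (le_max_left _ _) (hb ⟨d, le_refl d⟩),
      fun d' hd' => lt_of_le_of_lt (le_max_right _ _) (hb ⟨d', hd'⟩)⟩
  choose g hg1 hg2 using h1
  let s : ℕ → W := fun n => g^[n] α
  have hs : ∀ n, s (n + 1) = g (s n) := fun n => Function.iterate_succ_apply' g n α
  have hmono : StrictMono s := strictMono_nat_of_lt_succ (fun n => by rw [hs]; exact hg1 _)
  have hne : {b : W | ∀ n, s n < b}.Nonempty := by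
    obtain ⟨b, hb⟩ := hW.bdd' (ι := ℕ) (by simpa using Cardinal.aleph0_le_continuum) s
    exact ⟨b, hb⟩
  let δ := hwf.wf.min _ hne
  have hδ : ∀ n, s n < δ := hwf.wf.min_mem _ hne
  have hmin : ∀ b < δ, ∃ n, b ≤ s n := by
    intro b hb
    by_contra hcon
    push Not at hcon
    exact hwf.wf.not_lt_min {b : W | ∀ n, s n < b} hcon hb
  refine ⟨δ, hδ 0, ?_, s, hmono, hδ, ?_⟩
  · intro d hd
    obtain ⟨n, hn⟩ := hmin d hd
    have := hg2 (s n) d hn
    rw [← hs] at this
    exact this.trans (hδ _)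
  · intro b hb
    obtain ⟨n, hn⟩ := hmin b hb
    exact ⟨n + 1, lt_of_le_of_lt hn (hmono (Nat.lt_succ_self n))⟩

/-- a family of at most continuum many functions has a common majorant -/
theorem Good.exists_major {ι : Type} (hι : #ι ≤ 𝔠) (F : ι → W → W) :
    ∃ f : W → W, ∀ i d, F i d < f d := by
  have : ∀ d, ∃ b, ∀ i, F i d < b := fun d => hW.bdd' hι (fun i => F i d)
  choose f hf using this
  exact ⟨f, fun i d => hf d i⟩

omit hW in
theorem Cl_anti {f g : W → W} (h : ∀ d, f d ≤ g d) : Cl g ⊆ Cl f := by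
  intro δ hδ d hd
  exact lt_of_le_of_lt (h d) (hδ d hd)

/-- Ulam: infinitely many disjoint positive sets -/
theorem Good.exists_disjoint_pos :
    ∃ S : ℕ → Set W, (∀ k, Pos (S k)) ∧ Pairwise (fun i j => Disjoint (S i) (S j)) := by
  classical
  have hemb : ∀ δ : W, Nonempty ((Iio δ) ↪ ℝ) := by
    intro δ
    have := hW.small δ
    rw [← Cardinal.mk_real] at this
    exact (Cardinal.le_def _ _).1 this
  have e : ∀ δ : W, (Iio δ) ↪ ℝ := fun δ => Classical.choice (hemb δ)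
  let A : W → ℝ → Set W := fun α i => {δ | ∃ h : α < δ, e δ ⟨α, h⟩ = i}
  have hA : ∀ α, ∃ i, Pos (A α i) := by
    intro α
    by_contra hcon
    push Not at hcon
    have : ∀ i, ∃ f : W → W, ∀ δ ∈ A α i, δ ∈ Cl f → ¬ ∃ s, Ladder δ s := by
      intro i
      have := hcon i
      unfold Pos at this
      push Not at this
      obtain ⟨f, hf⟩ := this
      exact ⟨f, fun δ h1 h2 ⟨s, hs⟩ => hf δ h1 h2 s hs⟩
    choose F hF using this
    obtain ⟨f, hf⟩ := hW.exists_major (le_of_eq Cardinal.mk_real) F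
    obtain ⟨δ, h1, h2, h3⟩ := hW.exists_closed α f
    refine hF (e δ ⟨α, h1⟩) δ ⟨h1, rfl⟩ ?_ h3
    exact Cl_anti (fun d => (hf _ d).le) h2
  choose ι hι using hA
  -- some fibre is infinite
  have hfib : ∃ i : ℝ, (ι ⁻¹' {i}).Infinite := by
    by_contra hcon
    push Not at hcon
    have h1 : ∀ i : ℝ, ∃ b, ∀ a ∈ ι ⁻¹' {i}, a < b := by
      intro i
      have := hcon i
      exact hW.bddCountable (Set.Finite.countable (by simpa [Set.not_infinite] using this))
    choose b hb using h1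
    obtain ⟨c, hc⟩ := hW.bdd b
    exact absurd ((hb (ι c) c rfl).trans (hc (ι c))) (lt_irrefl _)
  obtain ⟨i, hi⟩ := hfib
  let a := hi.natEmbedding
  refine ⟨fun k => A (a k) i, fun k => ?_, ?_⟩
  · have h : ι (a k) = i := (a k).2
    have := hι (a k)
    rwa [h] at this
  · intro k l hkl
    rw [Set.disjoint_left]
    rintro δ ⟨h1, h2⟩ ⟨h3, h4⟩
    have := (e δ).injective (h2.trans h4.symm)
    apply hkl
    apply a.injective
    exact Subtype.ext (Subtype.mk.inj this)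

/-- the guessing step -/
theorem Good.guess_step (𝒢 : (W → W) → Set W)
    (mono : ∀ f g, (∀ d, f d ≤ g d) → 𝒢 g ⊆ 𝒢 f)
    (unb : ∀ f α, ∃ δ ∈ 𝒢 f, α < δ) (S : Set W) (hS : Pos S) :
    ∃ s : W → ℕ → W, ∀ f : W → W,
      Pos {δ | δ ∈ S ∧ δ ∈ Cl f ∧ Ladder δ (s δ) ∧ ∀ n, s δ n ∈ 𝒢 f} := by
  classical
  -- enumerate all sequences below δ by reals
  obtain ⟨w0⟩ := hW.ne
  have henum : ∀ δ : W, ∃ E : ℝ → ℕ → W, ∀ s : ℕ → W, (∀ n, s n < δ) → ∃ r, E r = s := by
    intro δ
    by_cases hemp : Nonempty (ℕ → Iio δ)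
    · have hcard : #(ℕ → Iio δ) ≤ #ℝ := by
        rw [Cardinal.mk_real]
        have : #(ℕ → Iio δ) = #(Iio δ) ^ ℵ₀ := by simp
        rw [this]
        refine (Cardinal.power_le_power_right (hW.small δ)).trans ?_
        rw [Cardinal.continuum_power_aleph0]
      obtain ⟨e⟩ := (Cardinal.le_def _ _).1 hcard
      refine ⟨fun r n => (Function.invFun e r n : W), ?_⟩
      intro s hs
      let s' : ℕ → Iio δ := fun n => ⟨s n, hs n⟩
      refine ⟨e s', ?_⟩
      funext n
      have h : Function.invFun e (e s') = s' := Function.leftInverse_invFun e.injective s'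
      show ((Function.invFun e (e s') n : Iio δ) : W) = s n
      rw [h]
    · refine ⟨fun _ _ => w0, fun s hs => ?_⟩
      exact (hemp ⟨fun n => ⟨s n, hs n⟩⟩).elim
  choose E hE using henum
  by_contra hcon
  push Not at hcon
  have h1 : ∀ r : ℝ, ∃ f : W → W, ∀ δ, δ ∈ S → δ ∈ Cl f → Ladder δ (E δ r) →
      ¬ ∀ n, E δ r n ∈ 𝒢 f := by
    intro r
    obtain ⟨f, hf⟩ := hcon (fun δ => E δ r)
    unfold Pos at hf
    push Not at hf
    obtain ⟨g, hg⟩ := hf
    refine ⟨fun d => max (f d) (g d), ?_⟩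
    intro δ h1 h2 h3 h4
    have hf' : δ ∈ Cl f := Cl_anti (fun d => le_max_left _ _) h2
    have hg' : δ ∈ Cl g := Cl_anti (fun d => le_max_right _ _) h2
    refine hg δ ⟨h1, hf', h3, fun n => ?_⟩ hg' (E δ r) h3
    exact mono f _ (fun d => le_max_left _ _) (h4 n)
  choose F hF using h1
  obtain ⟨f, hf⟩ := hW.exists_major (le_of_eq Cardinal.mk_real) F
  choose g hg1 hg2 using unb f
  obtain ⟨δ, h1, h2, t, ht⟩ := hS (fun d => max (f d) (g d))
  have hf' : δ ∈ Cl f := Cl_anti (fun d => le_max_left _ _) h2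
  have hg' : δ ∈ Cl g := Cl_anti (fun d => le_max_right _ _) h2
  -- build a ladder inside 𝒢 f
  have hstep : ∀ x : Iio δ, ∃ y : Iio δ, (x : W) < y ∧ (y : W) ∈ 𝒢 f := by
    intro x
    exact ⟨⟨g x, hg' x x.2⟩, hg2 x, hg1 x⟩
  choose G hG1 hG2 using hstep
  have ht0 : t 0 < δ := ht.2.1 0
  let u : ℕ → Iio δ := fun n => Nat.rec (G ⟨t 0, ht0⟩)
    (fun k x => G (max x ⟨t k, ht.2.1 k⟩)) n
  have hu : ∀ n, u (n + 1) = G (max (u n) ⟨t n, ht.2.1 n⟩) := fun n => rfl
  let v : ℕ → W := fun n => (u n).1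
  have hlad : Ladder δ v := by
    refine ⟨strictMono_nat_of_lt_succ fun n => ?_, fun n => (u n).2, ?_⟩
    · have := hG1 (max (u n) ⟨t n, ht.2.1 n⟩)
      rw [← hu] at this
      refine lt_of_le_of_lt ?_ this
      exact Subtype.coe_le_coe.2 (le_max_left _ _)
    · intro b hb
      obtain ⟨n, hn⟩ := ht.2.2 b hb
      refine ⟨n + 1, hn.trans ?_⟩
      have := hG1 (max (u n) ⟨t n, ht.2.1 n⟩)
      rw [← hu] at this
      refine lt_of_le_of_lt ?_ this
      exact Subtype.coe_le_coe.2 (le_max_right (u n) ⟨t n, ht.2.1 n⟩)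
  have hmem : ∀ n, v n ∈ 𝒢 f := by
    intro n
    cases n with
    | zero => exact hG2 _
    | succ k => exact hG2 _
  obtain ⟨r, hr⟩ := hE δ v (fun n => (u n).2)
  refine hF r δ h1 (Cl_anti (fun d => (hf r d).le) hf') (by rw [hr]; exact hlad) ?_
  intro n
  rw [hr]
  exact mono _ _ (fun d => (hf r d).le) (hmem n)

end Order

end Pool.Agent.Y277.TH
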