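import Pool.Agent.Y277.TH.Comb

set_option autoImplicit false

namespace Pool.Agent.Y277.TH

open Set Cardinal

section

variable {W : Type} [LinearOrder W]

/-- a monotone family of unbounded sets -/
structure GoodFam (W : Type) [LinearOrder W] where
  G : (W → W) → Set W
  mono : ∀ f g, (∀ d, f d ≤ g d) → G g ⊆ G f
  unb : ∀ f α, ∃ δ ∈ G f, α < δ

/-- the next set in the recursion -/
def nextG (S : Set W) (s : W → ℕ → W) (G : (W → W) → Set W) (f : W → W) : Set W :=
  {δ | δ ∈ S ∧ δ ∈ Cl f ∧ Ladder δ (s δ) ∧ ∀ n, s δ n ∈ G f}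

theorem exists_guess (hW : Good W) :
    ∃ (S : ℕ → Set W) (lad : ℕ → W → ℕ → W) (G : ℕ → (W → W) → Set W),
      Pairwise (fun i j => Disjoint (S i) (S j)) ∧
      (∀ f, G 0 f = Cl f) ∧
      (∀ k f, G (k + 1) f = nextG (S k) (lad k) (G k) f) ∧
      (∀ k f, (G k f).Nonempty) := by
  classical
  obtain ⟨S, hS, hdis⟩ := hW.exists_disjoint_pos
  -- the step
  have hstep : ∀ (k : ℕ) (𝒢 : GoodFam W), ∃ s : W → ℕ → W, ∃ 𝒢' : GoodFam W,
      ∀ f, 𝒢'.G f = nextG (S k) s 𝒢.G f := by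
    intro k 𝒢
    obtain ⟨s, hs⟩ := hW.guess_step 𝒢.G 𝒢.mono 𝒢.unb (S k) (hS k)
    refine ⟨s, ⟨nextG (S k) s 𝒢.G, ?_, ?_⟩, fun f => rfl⟩
    · rintro f g hfg δ ⟨h1, h2, h3, h4⟩
      exact ⟨h1, Cl_anti hfg h2, h3, fun n => 𝒢.mono f g hfg (h4 n)⟩
    · intro f α
      obtain ⟨δ, h1, h2, t, ht⟩ := hs f (fun _ => α)
      exact ⟨δ, h1, h2 (t 0) (ht.2.1 0)⟩
  choose sl nx hnx using hstep
  let base : GoodFam W := ⟨Cl, fun f g h => Cl_anti h, fun f α => by
    obtain ⟨δ, h1, h2, _⟩ := hW.exists_closed α f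
    exact ⟨δ, h2, h1⟩⟩
  let fam : ℕ → GoodFam W := fun n => Nat.rec base (fun k F => nx k F) n
  have hfam : ∀ k, fam (k + 1) = nx k (fam k) := fun k => rfl
  refine ⟨S, fun k => sl k (fam k), fun k => (fam k).G, hdis, fun f => rfl, ?_, ?_⟩
  · intro k f
    show (fam (k + 1)).G f = _
    rw [hfam]
    exact hnx k (fam k) f
  · intro k f
    obtain ⟨w0⟩ := hW.ne
    obtain ⟨δ, hδ, _⟩ := (fam k).unb f w0
    exact ⟨δ, hδ⟩

/-- one step of the walk towards `a` -/
def Nx (L : W → Set W) (a x y : W) : Prop := y ∈ L x ∧ a ≤ y ∧ ∀ z ∈ L x, a ≤ z → y ≤ z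

/-- the walk relation -/
abbrev Wk (L : W → Set W) (a : W) : W → W → Prop := Relation.ReflTransGen (Nx L a)

theorem Nx.unique {L : W → Set W} {a x y z : W} (h1 : Nx L a x y) (h2 : Nx L a x z) : y = z :=
  le_antisymm (h1.2.2 z h2.1 h2.2.1) (h2.2.2 y h1.1 h1.2.1)

theorem Wk.le {L : W → Set W} (hL : ∀ x, ∀ y ∈ L x, y < x) {a x y : W} (h : Wk L a x y) :
    y ≤ x := by
  induction h with
  | refl => exact le_refl _
  | tail _ h2 ih => exact (hL _ _ h2.1).le.trans ih

theorem Wk.total {L : W → Set W} {a c x y : W} (h1 : Wk L a c x) (h2 : Wk L a c y) :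
    Wk L a x y ∨ Wk L a y x :=
  Relation.ReflTransGen.total_of_right_unique (fun _ _ _ h h' => h.unique h') h1 h2

theorem Wk.raise {L : W → Set W} (hL : ∀ x, ∀ y ∈ L x, y < x) {a a' c x : W}
    (h : Wk L a c x) (h1 : a ≤ a') (h2 : a' ≤ x) : Wk L a' c x := by
  induction h using Relation.ReflTransGen.head_induction_on with
  | refl => exact Relation.ReflTransGen.refl
  | head hcd hdx ih =>
    refine Relation.ReflTransGen.head ⟨hcd.1, ?_, ?_⟩ ih
    · exact h2.trans (Wk.le hL hdx)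
    · intro z hz haz
      exact hcd.2.2 z hz (h1.trans haz)

/-- bounding: walks from `c > δ` to points just below `δ` that reach `[.., δ]` pass through `δ` -/
theorem Wk.bound (hW : Good W) {L : W → Set W} (hL : ∀ x, ∀ y ∈ L x, y < x)
    (hfin : ∀ c δ, δ < c → (L c ∩ Iio δ).Finite) (δ : W)
    (hne : ∃ b, b < δ) :
    ∀ c, δ < c → ∃ β < δ, ∀ a, β < a → a < δ → ∀ x ≤ δ, Wk L a c x → Wk L a δ x := by
  classical
  have hwf := hW.wf
  intro c
  induction c using WellFoundedLT.induction with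
  | ind c ih =>
  intro hc
  -- a bound for the part of `L c` below δ
  have h0 : ∃ β0 < δ, ∀ z ∈ L c, z < δ → z ≤ β0 := by
    rcases (L c ∩ Iio δ).eq_empty_or_nonempty with he | hne'
    · obtain ⟨b, hb⟩ := hne
      refine ⟨b, hb, fun z hz hzd => ?_⟩
      have : z ∈ L c ∩ Iio δ := ⟨hz, hzd⟩
      rw [he] at this
      exact this.elim
    · obtain ⟨m, hm, hmax⟩ := (hfin c δ hc).exists_maximal hne'
      refine ⟨m, hm.2, fun z hz hzd => ?_⟩
      rcases le_total z m with h | h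
      · exact h
      · exact hmax ⟨hz, hzd⟩ h
  obtain ⟨β0, hβ0, hβ0'⟩ := h0
  by_cases hD : (L c ∩ Ici δ).Nonempty
  · -- next point is the minimum d
    let d := hwf.wf.min _ hD
    have hd : d ∈ L c ∩ Ici δ := hwf.wf.min_mem _ hD
    have hdmin : ∀ z ∈ L c, δ ≤ z → d ≤ z := by
      intro z hz hzd
      exact hwf.wf.min_le (s := L c ∩ Ici δ) ⟨hz, hzd⟩
    have hnext : ∀ a, β0 < a → ∀ y, Nx L a c y → a < δ → y = d := by
      intro a ha y hy had
      have h1 : δ ≤ y := by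
        by_contra hcon
        push Not at hcon
        exact absurd (hβ0' y hy.1 hcon) (not_le.2 (lt_of_lt_of_le ha hy.2.1))
      exact le_antisymm (hy.2.2 d hd.1 (had.le.trans hd.2)) (hdmin y hy.1 h1)
    rcases eq_or_lt_of_le (show δ ≤ d from hd.2) with hdδ | hdδ
    · refine ⟨β0, hβ0, fun a ha haδ x hx hw => ?_⟩
      rcases Relation.ReflTransGen.cases_head hw with h | ⟨y, h1, h2⟩
      · exact absurd (h ▸ hx) (not_le.2 hc)
      · have := hnext a ha y h1 haδ
        rw [this, ← hdδ] at h2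
        exact h2
    · obtain ⟨β1, hβ1, hβ1'⟩ := ih d (hL _ _ hd.1) hdδ
      refine ⟨max β0 β1, max_lt hβ0 hβ1, fun a ha haδ x hx hw => ?_⟩
      rcases Relation.ReflTransGen.cases_head hw with h | ⟨y, h1, h2⟩
      · exact absurd (h ▸ hx) (not_le.2 hc)
      · have := hnext a (lt_of_le_of_lt (le_max_left _ _) ha) y h1 haδ
        rw [this] at h2
        exact hβ1' a (lt_of_le_of_lt (le_max_right _ _) ha) haδ x hx h2
  · refine ⟨β0, hβ0, fun a ha haδ x hx hw => ?_⟩
    rcases Relation.ReflTransGen.cases_head hw with h | ⟨y, h1, h2⟩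
    · exact absurd (h ▸ hx) (not_le.2 hc)
    · exfalso
      have h3 : δ ≤ y := by
        by_contra hcon
        push Not at hcon
        exact absurd (hβ0' y h1.1 hcon) (not_le.2 (lt_of_lt_of_le ha h1.2.1))
      exact hD ⟨y, h1.1, h3⟩

end

end Pool.Agent.Y277.TH
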