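import Mathlib

set_option autoImplicit false

namespace Pool.Agent.Y277.TH

open Finset

section

variable {Γ : Type} [DecidableEq Γ]

/-- the test functions for the lattice norm of the family `ℱ` -/
def BB (ℱ : Set (Finset Γ)) : Set (Γ → ℝ) :=
  {b | ∃ (ι : Type) (_ : Fintype ι) (E : ι → Finset Γ) (t : ι → ℝ),
    (∀ i, E i ∈ ℱ) ∧ (Pairwise fun i j => Disjoint (E i) (E j)) ∧ (∀ i, 0 ≤ t i) ∧
    ∑ i, t i ^ 2 ≤ 1 ∧ ∀ γ, b γ = ∑ i, if γ ∈ E i then t i else 0}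

theorem BB_nonneg {ℱ : Set (Finset Γ)} {b : Γ → ℝ} (hb : b ∈ BB ℱ) (γ : Γ) : 0 ≤ b γ := by
  obtain ⟨ι, _, E, t, _, _, h3, _, h5⟩ := hb
  rw [h5]
  refine Finset.sum_nonneg fun i _ => ?_
  split_ifs
  · exact h3 i
  · exact le_refl _

theorem BB_le_one {ℱ : Set (Finset Γ)} {b : Γ → ℝ} (hb : b ∈ BB ℱ) (γ : Γ) : b γ ≤ 1 := by
  classical
  obtain ⟨ι, _, E, t, _, h2, h3, h4, h5⟩ := hb
  rw [h5]
  by_cases h : ∃ i, γ ∈ E i
  · obtain ⟨i, hi⟩ := h
    rw [Finset.sum_eq_single i]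
    · rw [if_pos hi]
      have h6 : t i ^ 2 ≤ 1 :=
        (Finset.single_le_sum (f := fun j => t j ^ 2) (fun j _ => sq_nonneg _)
          (Finset.mem_univ i)).trans h4
      nlinarith [h3 i]
    · intro j _ hj
      rw [if_neg]
      intro hj2
      exact (Finset.disjoint_left.1 (h2 hj)) hj2 hi
    · intro hn; exact absurd (Finset.mem_univ i) hn
  · push Not at h
    rw [Finset.sum_eq_zero]
    · norm_num
    · intro i _
      rw [if_neg (h i)]

theorem BB_ind {ℱ : Set (Finset Γ)} {E : Finset Γ} (hE : E ∈ ℱ) :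
    (fun γ => if γ ∈ E then (1 : ℝ) else 0) ∈ BB ℱ := by
  refine ⟨Unit, inferInstance, fun _ => E, fun _ => 1, fun _ => hE, ?_, fun _ => zero_le_one,
    by simp, fun γ => by simp⟩
  intro i j hij
  exact (hij (Subsingleton.elim i j)).elim

theorem BB_comb {ℱ : Set (Finset Γ)} (hsub : ∀ E ∈ ℱ, ∀ E', E' ⊆ E → E' ∈ ℱ)
    {ι : Type} [Fintype ι] (S : ι → Finset Γ) (hS : Pairwise fun i j => Disjoint (S i) (S j))
    (b : ι → Γ → ℝ) (hb : ∀ i, b i ∈ BB ℱ) (t : ι → ℝ) (ht : ∀ i, 0 ≤ t i)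
    (ht2 : ∑ i, t i ^ 2 ≤ 1) :
    (fun γ => ∑ i, if γ ∈ S i then t i * b i γ else 0) ∈ BB ℱ := by
  classical
  choose κ hκ E s h1 h2 h3 h4 h5 using hb
  refine ⟨Σ i, κ i, inferInstance, fun p => E p.1 p.2 ∩ S p.1, fun p => t p.1 * s p.1 p.2,
    ?_, ?_, ?_, ?_, ?_⟩
  · rintro ⟨i, j⟩
    exact hsub _ (h1 i j) _ Finset.inter_subset_left
  · rintro ⟨i, j⟩ ⟨i', j'⟩ hne
    by_cases hi : i = i'
    · subst hi
      have hj : j ≠ j' := fun h => hne (by rw [h])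
      exact (h2 i hj).mono Finset.inter_subset_left Finset.inter_subset_left
    · exact (hS hi).mono Finset.inter_subset_right Finset.inter_subset_right
  · rintro ⟨i, j⟩
    exact mul_nonneg (ht i) (h3 i j)
  · rw [Fintype.sum_sigma]
    refine le_trans (Finset.sum_le_sum fun i _ => ?_) ht2
    have : ∑ j, (t i * s i j) ^ 2 = t i ^ 2 * ∑ j, s i j ^ 2 := by
      rw [Finset.mul_sum]
      exact Finset.sum_congr rfl fun j _ => by ring
    show ∑ j, (t i * s i j) ^ 2 ≤ t i ^ 2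
    rw [this]
    nlinarith [h4 i, sq_nonneg (t i)]
  · intro γ
    rw [Fintype.sum_sigma]
    refine Finset.sum_congr rfl fun i _ => ?_
    by_cases h : γ ∈ S i
    · rw [if_pos h, h5 i γ, Finset.mul_sum]
      refine Finset.sum_congr rfl fun j _ => ?_
      simp only [Finset.mem_inter, h, and_true]
      split_ifs <;> simp
    · rw [if_neg h]
      symm
      refine Finset.sum_eq_zero fun j _ => ?_
      simp [h]

theorem BB_split {ℱ : Set (Finset Γ)} {ι : Type} [Fintype ι] (S : ι → Finset Γ) (m : ℕ)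
    (hm : ∀ E ∈ ℱ, (univ.filter fun i => ¬ Disjoint E (S i)).card ≤ m)
    {b : Γ → ℝ} (hb : b ∈ BB ℱ) :
    ∃ (β : ι → ℝ) (b' : ι → Γ → ℝ), (∀ i, 0 ≤ β i) ∧ ∑ i, β i ^ 2 ≤ m ∧
      (∀ i, b' i ∈ BB ℱ) ∧ ∀ i, ∀ γ ∈ S i, b γ = β i * b' i γ := by
  classical
  obtain ⟨κ, _, E, t, h1, h2, h3, h4, h5⟩ := hb
  let β2 : ι → ℝ := fun i => ∑ j, if ¬ Disjoint (E j) (S i) then t j ^ 2 else 0
  have hβ2 : ∀ i, 0 ≤ β2 i := fun i => Finset.sum_nonneg fun j _ => by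
    split_ifs
    · exact le_refl _
    · exact sq_nonneg _
  let β : ι → ℝ := fun i => Real.sqrt (β2 i)
  have hβsq : ∀ i, β i ^ 2 = β2 i := fun i => Real.sq_sqrt (hβ2 i)
  refine ⟨β, fun i γ => ∑ j, if γ ∈ E j then
      (if ¬ Disjoint (E j) (S i) then t j / β i else 0) else 0,
    fun i => Real.sqrt_nonneg _, ?_, ?_, ?_⟩
  · calc ∑ i, β i ^ 2 = ∑ i, β2 i := Finset.sum_congr rfl fun i _ => hβsq i
      _ = ∑ j, ∑ i, (if ¬ Disjoint (E j) (S i) then t j ^ 2 else 0) := Finset.sum_comm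
      _ ≤ ∑ j, (m : ℝ) * t j ^ 2 := by
          refine Finset.sum_le_sum fun j _ => ?_
          rw [← Finset.sum_filter, Finset.sum_const, nsmul_eq_mul]
          refine mul_le_mul_of_nonneg_right ?_ (sq_nonneg _)
          exact_mod_cast hm (E j) (h1 j)
      _ = (m : ℝ) * ∑ j, t j ^ 2 := by rw [Finset.mul_sum]
      _ ≤ (m : ℝ) * 1 := mul_le_mul_of_nonneg_left h4 (Nat.cast_nonneg m)
      _ = m := mul_one _
  · intro i
    refine ⟨κ, inferInstance, E, fun j => if ¬ Disjoint (E j) (S i) then t j / β i else 0,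
      h1, h2, ?_, ?_, fun γ => rfl⟩
    · intro j
      show 0 ≤ (if ¬ Disjoint (E j) (S i) then t j / β i else 0)
      split_ifs
      · exact le_refl _
      · exact div_nonneg (h3 j) (Real.sqrt_nonneg _)
    · by_cases h0 : β i = 0
      · refine le_trans (le_of_eq (Finset.sum_eq_zero fun j _ => ?_)) zero_le_one
        simp [h0]
      · have : ∑ j, (if ¬ Disjoint (E j) (S i) then t j / β i else 0) ^ 2
            = (∑ j, if ¬ Disjoint (E j) (S i) then t j ^ 2 else 0) / β i ^ 2 := by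
          rw [Finset.sum_div]
          refine Finset.sum_congr rfl fun j _ => ?_
          split_ifs
          · simp
          · rw [div_pow]
        rw [this, hβsq]
        exact div_self_le_one _
  · intro i γ hγ
    rw [h5 γ, Finset.mul_sum]
    refine Finset.sum_congr rfl fun j _ => ?_
    by_cases hj : γ ∈ E j
    · have hnd : ¬ Disjoint (E j) (S i) := Finset.not_disjoint_iff.2 ⟨γ, hj, hγ⟩
      simp only [hj, if_true, hnd, not_false_eq_true]
      by_cases h0 : β i = 0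
      · have hz : β2 i = 0 := by rw [← hβsq, h0]; ring
        have : (if ¬ Disjoint (E j) (S i) then t j ^ 2 else 0) = 0 := by
          refine (Finset.sum_eq_zero_iff_of_nonneg ?_).1 hz j (Finset.mem_univ j)
          intro k _
          split_ifs
          · exact le_refl _
          · exact sq_nonneg _
        rw [if_pos hnd] at this
        have : t j = 0 := by nlinarith
        simp [this]
      · field_simp
    · simp [hj]

/-- `A_F(a) ≤ r` -/
def AL (ℱ : Set (Finset Γ)) (F : Finset Γ) (a : Γ → ℝ) (r : ℝ) : Prop :=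
  ∀ b ∈ BB ℱ, ∑ γ ∈ F, |a γ| * b γ ≤ r

/-- `A*_F(v) ≤ q` -/
def AS (ℱ : Set (Finset Γ)) (F : Finset Γ) (v : Γ → ℝ) (q : ℝ) : Prop :=
  ∀ a : Γ → ℝ, AL ℱ F a 1 → ∑ γ ∈ F, |a γ| * |v γ| ≤ q

/-- admissible triples -/
def Adm (ℱ : Set (Finset Γ)) (F : Finset Γ) (w u : Γ → ℝ) : Prop :=
  AL ℱ F (fun γ => Real.exp (u γ) * w γ) 1 ∧ AS ℱ F (fun γ => Real.exp (-u γ) * w γ) 1

theorem AL.apply_le {ℱ : Set (Finset Γ)} (hsing : ∀ γ, {γ} ∈ ℱ) {F : Finset Γ} {a : Γ → ℝ}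
    {r : ℝ} (h : AL ℱ F a r) {γ : Γ} (hγ : γ ∈ F) : |a γ| ≤ r := by
  have h1 := h _ (BB_ind (hsing γ))
  have : ∑ γ' ∈ F, |a γ'| * (if γ' ∈ ({γ} : Finset Γ) then (1 : ℝ) else 0) = |a γ| := by
    rw [Finset.sum_eq_single γ]
    · simp
    · intro γ' _ hne
      simp [hne]
    · intro h; exact absurd hγ h
  rwa [this] at h1

theorem AL_single {ℱ : Set (Finset Γ)} (F : Finset Γ) {γ : Γ} :
    AL ℱ F (fun γ' => if γ' = γ then (1 : ℝ) else 0) 1 := by
  intro b hb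
  by_cases hγ : γ ∈ F
  · rw [Finset.sum_eq_single γ]
    · simp [BB_le_one hb γ]
    · intro γ' _ hne
      simp [hne]
    · intro h; exact absurd hγ h
  · rw [Finset.sum_eq_zero]
    · norm_num
    · intro γ' hγ'
      have : γ' ≠ γ := fun h => hγ (h ▸ hγ')
      simp [this]

theorem Adm.w_le {ℱ : Set (Finset Γ)} (hsing : ∀ γ, {γ} ∈ ℱ) {F : Finset Γ} {w u : Γ → ℝ}
    (h : Adm ℱ F w u) {γ : Γ} (hγ : γ ∈ F) : |w γ| * Real.exp |u γ| ≤ 1 := by
  have h1 := h.1.apply_le hsing hγ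
  have h2 := h.2 _ (AL_single F (γ := γ))
  rw [Finset.sum_eq_single γ] at h2
  · simp only [if_true, abs_one, one_mul, abs_mul, Real.abs_exp] at h1 h2
    rcases abs_cases (u γ) with ⟨h3, _⟩ | ⟨h3, _⟩
    · rw [h3, mul_comm]; exact h1
    · rw [h3, mul_comm]; exact h2
  · intro γ' _ hne
    simp [hne]
  · intro h; exact absurd hγ h

theorem Adm.sq_le {ℱ : Set (Finset Γ)} {F : Finset Γ} {w u : Γ → ℝ}
    (h : Adm ℱ F w u) : ∑ γ ∈ F, w γ ^ 2 ≤ 1 := by
  have h1 := h.2 _ h.1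
  refine le_trans (le_of_eq (Finset.sum_congr rfl fun γ _ => ?_)) h1
  rw [abs_mul, abs_mul, Real.abs_exp, Real.abs_exp]
  have : Real.exp (u γ) * |w γ| * (Real.exp (-u γ) * |w γ|)
      = (Real.exp (u γ) * Real.exp (-u γ)) * (|w γ| * |w γ|) := by ring
  rw [this, ← Real.exp_add, add_neg_cancel, Real.exp_zero, one_mul, abs_mul_abs_self, sq]

theorem AL.mono {ℱ : Set (Finset Γ)} {F F' : Finset Γ} {a a' : Γ → ℝ} {r : ℝ}
    (h : AL ℱ F a r) (hF : F' ⊆ F) (ha : ∀ γ ∈ F', |a' γ| ≤ |a γ|) : AL ℱ F' a' r := by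
  intro b hb
  refine le_trans ?_ (h b hb)
  refine le_trans (Finset.sum_le_sum fun γ hγ =>
    mul_le_mul_of_nonneg_right (ha γ hγ) (BB_nonneg hb γ)) ?_
  exact Finset.sum_le_sum_of_subset_of_nonneg hF fun γ _ _ =>
    mul_nonneg (abs_nonneg _) (BB_nonneg hb γ)

theorem AS.mono {ℱ : Set (Finset Γ)} {F F' : Finset Γ} {v v' : Γ → ℝ} {r : ℝ}
    (h : AS ℱ F v r) (hF : F' ⊆ F) (hv : ∀ γ ∈ F', |v' γ| ≤ |v γ|) : AS ℱ F' v' r := by
  intro a ha
  have h1 : AL ℱ F (fun γ => if γ ∈ F' then a γ else 0) 1 := by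
    intro b hb
    refine le_trans (le_of_eq ?_) (ha b hb)
    rw [← Finset.sum_subset hF]
    · refine Finset.sum_congr rfl fun γ hγ => by simp [hγ]
    · intro γ _ hγ
      simp [hγ]
  refine le_trans ?_ (h _ h1)
  have h2 : ∑ γ ∈ F, |(if γ ∈ F' then a γ else 0)| * |v γ| = ∑ γ ∈ F', |a γ| * |v γ| := by
    rw [← Finset.sum_subset hF]
    · refine Finset.sum_congr rfl fun γ hγ => by rw [if_pos hγ]
    · intro γ _ hγ
      rw [if_neg hγ]; simp
  rw [h2]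
  exact Finset.sum_le_sum fun γ hγ => mul_le_mul_of_nonneg_left (hv γ hγ) (abs_nonneg _)

theorem Adm.mono {ℱ : Set (Finset Γ)} {F F' : Finset Γ} {w w' u : Γ → ℝ}
    (h : Adm ℱ F w u) (hF : F' ⊆ F) (hw : ∀ γ ∈ F', |w' γ| ≤ |w γ|) : Adm ℱ F' w' u := by
  refine ⟨h.1.mono hF fun γ hγ => ?_, h.2.mono hF fun γ hγ => ?_⟩
  · rw [abs_mul, abs_mul]
    exact mul_le_mul_of_nonneg_left (hw γ hγ) (abs_nonneg _)
  · rw [abs_mul, abs_mul]
    exact mul_le_mul_of_nonneg_left (hw γ hγ) (abs_nonneg _)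

end

end Pool.Agent.Y277.TH
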