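import Pool.Agent.Y277.TH.LN

set_option autoImplicit false

namespace Pool.Agent.Y277.TH

open Finset Filter Topology

section

variable {Γ : Type} [DecidableEq Γ]

/-- Lozanovskii factorisation on finite sets -/
theorem exists_adm {ℱ : Set (Finset Γ)} (hsing : ∀ γ, {γ} ∈ ℱ) (F : Finset Γ) (w : Γ → ℝ)
    (hw : ∑ γ ∈ F, w γ ^ 2 ≤ 1) : ∃ u, Adm ℱ F w u := by
  classical
  let G : Finset Γ := F.filter fun γ => w γ ≠ 0
  have hG : ∀ γ, γ ∈ G ↔ γ ∈ F ∧ w γ ≠ 0 := fun γ => by simp [G]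
  have hGF : G ⊆ F := Finset.filter_subset _ _
  rcases G.eq_empty_or_nonempty with he | hne
  · have h0 : ∀ γ ∈ F, w γ = 0 := by
      intro γ hγ
      by_contra hcon
      have : γ ∈ G := (hG γ).2 ⟨hγ, hcon⟩
      rw [he] at this
      exact absurd this (Finset.notMem_empty _)
    refine ⟨fun _ => 0, ?_, ?_⟩
    · intro b _
      rw [Finset.sum_eq_zero]
      · norm_num
      · intro γ hγ
        simp [h0 γ hγ]
    · intro a _
      rw [Finset.sum_eq_zero]
      · norm_num
      · intro γ hγ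
        simp [h0 γ hγ]
  -- the compact set
  let K : Set (G → ℝ) := {a | (∀ γ, 0 ≤ a γ ∧ a γ ≤ 1) ∧ ∀ b ∈ BB ℱ, ∑ γ : G, a γ * b γ ≤ 1}
  have hKc : IsCompact K := by
    refine IsCompact.of_isClosed_subset (isCompact_Icc (a := (0 : G → ℝ)) (b := 1)) ?_ ?_
    · have h1 : K = (⋂ γ : G, {a | 0 ≤ a γ ∧ a γ ≤ 1}) ∩
          ⋂ b ∈ BB ℱ, {a : G → ℝ | ∑ γ : G, a γ * b γ ≤ 1} := by
        ext a
        simp [K]
      rw [h1]
      refine IsClosed.inter (isClosed_iInter fun γ => ?_)
        (isClosed_iInter fun b => isClosed_iInter fun _ => ?_)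
      · exact (isClosed_le continuous_const (continuous_apply γ)).inter
          (isClosed_le (continuous_apply γ) continuous_const)
      · exact isClosed_le (continuous_finsetSum _ fun γ _ =>
          (continuous_apply γ).mul continuous_const) continuous_const
    · intro a ha
      exact ⟨fun γ => (ha.1 γ).1, fun γ => (ha.1 γ).2⟩
  let a0 : G → ℝ := fun _ => (G.card : ℝ)⁻¹
  have hcard : (0 : ℝ) < G.card := by exact_mod_cast hne.card_pos
  have ha0 : a0 ∈ K := by
    refine ⟨fun γ => ⟨inv_nonneg.2 hcard.le, ?_⟩, fun b hb => ?_⟩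
    · refine inv_le_one_of_one_le₀ ?_
      exact_mod_cast hne.card_pos
    · calc ∑ γ : G, a0 γ * b γ ≤ ∑ γ : G, (G.card : ℝ)⁻¹ * 1 :=
            Finset.sum_le_sum fun γ _ => mul_le_mul_of_nonneg_left (BB_le_one hb _)
              (inv_nonneg.2 hcard.le)
        _ = 1 := by
            rw [Finset.sum_const, nsmul_eq_mul, Finset.card_univ, Fintype.card_coe, mul_one]
            exact mul_inv_cancel₀ hcard.ne'
  let p : G → ℝ := fun γ => w γ ^ 2
  have hp : ∀ γ : G, 0 < p γ := fun γ => by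
    have := ((hG γ).1 γ.2).2
    positivity
  let P : (G → ℝ) → ℝ := fun a => ∏ γ : G, (a γ) ^ (p γ)
  have hPc : Continuous P := by
    refine continuous_finsetProd _ fun γ _ => ?_
    exact (Real.continuous_rpow_const (hp γ).le).comp (continuous_apply γ)
  obtain ⟨a, haK, hmax⟩ := hKc.exists_isMaxOn ⟨a0, ha0⟩ hPc.continuousOn
  have hPpos : 0 < P a := by
    refine lt_of_lt_of_le ?_ (hmax ha0)
    refine Finset.prod_pos fun γ _ => ?_
    exact Real.rpow_pos_of_pos (inv_pos.2 hcard) _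
  have hapos : ∀ γ, 0 < a γ := by
    intro γ
    rcases (haK.1 γ).1.lt_or_eq with h | h
    · exact h
    · exfalso
      have : P a = 0 := by
        refine Finset.prod_eq_zero (Finset.mem_univ γ) ?_
        rw [← h, Real.zero_rpow (hp γ).ne']
      rw [this] at hPpos
      exact lt_irrefl _ hPpos
  -- first order condition
  have hfo : ∀ c ∈ K, ∑ γ : G, p γ * (c γ / a γ) ≤ 1 := by
    intro c hc
    let s : G → ℝ := fun γ => c γ / a γ - 1
    have hs : ∀ γ, -1 ≤ s γ := fun γ => by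
      have : 0 ≤ c γ / a γ := div_nonneg (hc.1 γ).1 (hapos γ).le
      show -1 ≤ c γ / a γ - 1
      linarith
    have hkey : ∀ t : ℝ, 0 < t → t < 1 → ∑ γ : G, p γ * (s γ / (1 + t * s γ)) ≤ 0 := by
      intro t ht0 ht1
      have hpos : ∀ γ, 0 < 1 + t * s γ := fun γ => by nlinarith [hs γ]
      have hmem : (fun γ => a γ * (1 + t * s γ)) ∈ K := by
        have heq : ∀ γ, a γ * (1 + t * s γ) = (1 - t) * a γ + t * c γ := by
          intro γ
          show a γ * (1 + t * (c γ / a γ - 1)) = _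
          have := (hapos γ).ne'
          field_simp
          ring
        refine ⟨fun γ => ?_, fun b hb => ?_⟩
        · show 0 ≤ a γ * (1 + t * s γ) ∧ a γ * (1 + t * s γ) ≤ 1
          rw [heq]
          constructor
          · have := (haK.1 γ).1
            have := (hc.1 γ).1
            nlinarith
          · have := (haK.1 γ).2
            have := (hc.1 γ).2
            nlinarith
        · calc ∑ γ : G, a γ * (1 + t * s γ) * b γ
                = (1 - t) * ∑ γ : G, a γ * b γ + t * ∑ γ : G, c γ * b γ := by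
                rw [Finset.mul_sum, Finset.mul_sum, ← Finset.sum_add_distrib]
                refine Finset.sum_congr rfl fun γ _ => ?_
                rw [heq]; ring
            _ ≤ 1 := by
                have h1 := haK.2 b hb
                have h2 := hc.2 b hb
                nlinarith
      have h1 := hmax hmem
      have h2 : P (fun γ => a γ * (1 + t * s γ)) = P a * ∏ γ : G, (1 + t * s γ) ^ (p γ) := by
        show ∏ γ : G, (a γ * (1 + t * s γ)) ^ (p γ) = (∏ γ : G, (a γ) ^ (p γ)) * _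
        rw [← Finset.prod_mul_distrib]
        refine Finset.prod_congr rfl fun γ _ => ?_
        rw [Real.mul_rpow (hapos γ).le (hpos γ).le]
      have h3 : ∏ γ : G, (1 + t * s γ) ^ (p γ) ≤ 1 := by
        have h1' : P a * ∏ γ : G, (1 + t * s γ) ^ (p γ) ≤ P a := by rw [← h2]; exact h1
        by_contra hcon
        push Not at hcon
        nlinarith
      have h4 : 0 < ∏ γ : G, (1 + t * s γ) ^ (p γ) :=
        Finset.prod_pos fun γ _ => Real.rpow_pos_of_pos (hpos γ) _
      have h5 : ∑ γ : G, p γ * Real.log (1 + t * s γ) ≤ 0 := by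
        have h6 := Real.log_nonpos h4.le h3
        rw [Real.log_prod (fun γ _ => (Real.rpow_pos_of_pos (hpos γ) _).ne')] at h6
        refine le_trans (le_of_eq (Finset.sum_congr rfl fun γ _ => ?_)) h6
        rw [Real.log_rpow (hpos γ)]
      have h7 : t * ∑ γ : G, p γ * (s γ / (1 + t * s γ)) ≤ 0 := by
        refine le_trans ?_ h5
        rw [Finset.mul_sum]
        refine Finset.sum_le_sum fun γ _ => ?_
        have h8 := Real.one_sub_inv_le_log_of_pos (hpos γ)
        have h9 : 1 - (1 + t * s γ)⁻¹ = t * (s γ / (1 + t * s γ)) := by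
          have := (hpos γ).ne'
          field_simp
          ring
        rw [h9] at h8
        have := mul_le_mul_of_nonneg_left h8 (hp γ).le
        linarith
      by_contra hcon
      push Not at hcon
      nlinarith
    have hlim : Tendsto (fun t : ℝ => ∑ γ : G, p γ * (s γ / (1 + t * s γ))) (𝓝[>] 0)
        (𝓝 (∑ γ : G, p γ * s γ)) := by
      refine tendsto_finsetSum _ fun γ _ => ?_
      have h1 : Tendsto (fun t : ℝ => 1 + t * s γ) (𝓝[>] 0) (𝓝 (1 + 0 * s γ)) :=
        ((continuous_const.add (continuous_id.mul continuous_const)).tendsto 0).mono_left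
          nhdsWithin_le_nhds
      have h2 : Tendsto (fun t : ℝ => s γ / (1 + t * s γ)) (𝓝[>] 0) (𝓝 (s γ / (1 + 0 * s γ))) :=
        tendsto_const_nhds.div h1 (by simp)
      have h3 := h2.const_mul (p γ)
      simpa using h3
    have hle : ∑ γ : G, p γ * s γ ≤ 0 := by
      refine le_of_tendsto hlim ?_
      have : Set.Ioo (0 : ℝ) 1 ∈ 𝓝[>] (0 : ℝ) := Ioo_mem_nhdsGT zero_lt_one
      filter_upwards [this] with t ht
      exact hkey t ht.1 ht.2
    have hsum : ∑ γ : G, p γ * s γ = ∑ γ : G, p γ * (c γ / a γ) - ∑ γ : G, p γ := by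
      rw [← Finset.sum_sub_distrib]
      refine Finset.sum_congr rfl fun γ _ => ?_
      show p γ * (c γ / a γ - 1) = _
      ring
    have hps : ∑ γ : G, p γ ≤ 1 := by
      refine le_trans ?_ hw
      have : ∑ γ : G, p γ = ∑ γ ∈ G, w γ ^ 2 := Finset.sum_coe_sort G (fun γ => w γ ^ 2)
      rw [this]
      exact Finset.sum_le_sum_of_subset_of_nonneg hGF fun γ _ _ => sq_nonneg _
    linarith
  -- the weight
  let u : Γ → ℝ := fun γ => if h : γ ∈ G then Real.log (a ⟨γ, h⟩ / |w γ|) else 0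
  have hu : ∀ γ : G, Real.exp (u γ) = a γ / |w γ| := by
    intro γ
    have hwp : 0 < |w γ| := abs_pos.2 ((hG γ).1 γ.2).2
    have : u γ = Real.log (a γ / |w γ|) := by
      simp only [u, γ.2, dif_pos]
    rw [this, Real.exp_log (div_pos (hapos γ) hwp)]
  have hFG : ∀ (g : Γ → ℝ), (∀ γ ∈ F, γ ∉ G → g γ = 0) → ∑ γ ∈ F, g γ = ∑ γ : G, g γ := by
    intro g hg
    rw [← Finset.sum_subset hGF hg]
    exact (Finset.sum_coe_sort G g).symm
  have hw0 : ∀ γ ∈ F, γ ∉ G → w γ = 0 := by
    intro γ hγ hγG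
    by_contra hcon
    exact hγG ((hG γ).2 ⟨hγ, hcon⟩)
  refine ⟨u, ?_, ?_⟩
  · intro b hb
    rw [hFG _ (fun γ h1 h2 => by simp [hw0 γ h1 h2])]
    refine le_trans (le_of_eq (Finset.sum_congr rfl fun γ _ => ?_)) (haK.2 b hb)
    have hwp : 0 < |w γ| := abs_pos.2 ((hG γ).1 γ.2).2
    rw [abs_mul, Real.abs_exp, hu γ, div_mul_cancel₀ _ hwp.ne']
  · intro a' ha'
    rw [hFG _ (fun γ h1 h2 => by simp [hw0 γ h1 h2])]
    have hcK : (fun γ : G => |a' γ|) ∈ K := by
      refine ⟨fun γ => ⟨abs_nonneg _, ha'.apply_le hsing (hGF γ.2)⟩, fun b hb => ?_⟩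
      refine le_trans ?_ (ha' b hb)
      have : ∑ γ : G, |a' γ| * b γ = ∑ γ ∈ G, |a' γ| * b γ :=
        Finset.sum_coe_sort G (fun γ => |a' γ| * b γ)
      rw [this]
      exact Finset.sum_le_sum_of_subset_of_nonneg hGF fun γ _ _ =>
        mul_nonneg (abs_nonneg _) (BB_nonneg hb γ)
    refine le_trans (le_of_eq (Finset.sum_congr rfl fun γ _ => ?_)) (hfo _ hcK)
    have hwp : 0 < |w γ| := abs_pos.2 ((hG γ).1 γ.2).2
    have hap := hapos γ
    rw [abs_mul, Real.abs_exp, Real.exp_neg, hu γ]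
    show |a' γ| * ((a γ / |w γ|)⁻¹ * |w γ|) = w γ ^ 2 * (|a' γ| / a γ)
    rw [← sq_abs (w γ)]
    field_simp

theorem abs_le_exp_add (t : ℝ) : |t| ≤ Real.exp t + Real.exp (-t) := by
  rcases abs_cases t with ⟨h, _⟩ | ⟨h, _⟩
  · rw [h]
    have h1 := Real.add_one_le_exp t
    have h2 := Real.exp_pos (-t)
    linarith
  · rw [h]
    have h1 := Real.add_one_le_exp (-t)
    have h2 := Real.exp_pos t
    linarith

/-- the duality pairing of two admissible triples -/
theorem adm_pair {ℱ : Set (Finset Γ)} {F F' : Finset Γ} {x u w v : Γ → ℝ}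
    (hx : Adm ℱ F x u) (hw : Adm ℱ F' w v) (hx0 : ∀ γ, γ ∉ F → x γ = 0) :
    |∑ γ ∈ F', (x γ * u γ - x γ * v γ) * w γ| ≤ 2 := by
  have hsub : F' ∩ F ⊆ F' := Finset.inter_subset_left
  have hred : ∀ g : Γ → ℝ, (∀ γ, γ ∉ F → g γ = 0) → ∑ γ ∈ F', g γ = ∑ γ ∈ F' ∩ F, g γ := by
    intro g hg
    rw [← Finset.sum_subset hsub]
    intro γ h1 h2
    apply hg
    intro h3
    exact h2 (Finset.mem_inter.2 ⟨h1, h3⟩)
  rw [hred _ (fun γ h => by simp [hx0 γ h])]
  refine (Finset.abs_sum_le_sum_abs _ _).trans ?_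
  have h1 : ∑ γ ∈ F' ∩ F, |Real.exp (u γ) * x γ| * |Real.exp (-v γ) * w γ| ≤ 1 :=
    (hw.2.mono hsub fun γ _ => le_refl _) _
      (hx.1.mono Finset.inter_subset_right fun γ _ => le_refl _)
  have h2 : ∑ γ ∈ F' ∩ F, |Real.exp (v γ) * w γ| * |Real.exp (-u γ) * x γ| ≤ 1 :=
    (hx.2.mono Finset.inter_subset_right fun γ _ => le_refl _) _
      (hw.1.mono hsub fun γ _ => le_refl _)
  have h3 : ∑ γ ∈ F' ∩ F, |(x γ * u γ - x γ * v γ) * w γ| ≤
      ∑ γ ∈ F' ∩ F, (|Real.exp (u γ) * x γ| * |Real.exp (-v γ) * w γ| +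
        |Real.exp (v γ) * w γ| * |Real.exp (-u γ) * x γ|) := by
    refine Finset.sum_le_sum fun γ _ => ?_
    have h4 := abs_le_exp_add (u γ - v γ)
    have h5 : |(x γ * u γ - x γ * v γ) * w γ| = |x γ| * |w γ| * |u γ - v γ| := by
      rw [← mul_sub, abs_mul, abs_mul]; ring
    have h6 : Real.exp (u γ - v γ) = Real.exp (u γ) * Real.exp (-v γ) := by
      rw [← Real.exp_add]; ring_nf
    have h7 : Real.exp (-(u γ - v γ)) = Real.exp (v γ) * Real.exp (-u γ) := by
      rw [← Real.exp_add]; ring_nf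
    rw [h5, abs_mul, abs_mul, abs_mul, abs_mul, Real.abs_exp, Real.abs_exp, Real.abs_exp,
      Real.abs_exp]
    rw [h6, h7] at h4
    have := mul_le_mul_of_nonneg_left h4 (mul_nonneg (abs_nonneg (x γ)) (abs_nonneg (w γ)))
    linarith
  rw [Finset.sum_add_distrib] at h3
  linarith

/-- the flat vector on a member of `ℱ` -/
theorem adm_flat {ℱ : Set (Finset Γ)} {E : Finset Γ} (hE : E ∈ ℱ) (hne : E.Nonempty)
    (θ : Γ → ℝ) (hθ : ∀ γ, |θ γ| ≤ 1) :
    Adm ℱ E (fun γ => θ γ / Real.sqrt E.card) (fun _ => -(1 / 2 * Real.log E.card)) := by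
  have hN : (0 : ℝ) < E.card := by exact_mod_cast hne.card_pos
  have hsq : 0 < Real.sqrt E.card := Real.sqrt_pos.2 hN
  have hexp : Real.exp (1 / 2 * Real.log E.card) = Real.sqrt E.card := by
    rw [← Real.exp_log hsq, Real.log_sqrt hN.le]
    ring_nf
  have hexp' : Real.exp (-(1 / 2 * Real.log E.card)) = (Real.sqrt E.card)⁻¹ := by
    rw [Real.exp_neg, hexp]
  constructor
  · intro b hb
    calc ∑ γ ∈ E, |Real.exp (-(1 / 2 * Real.log E.card)) * (θ γ / Real.sqrt E.card)| * b γ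
        ≤ ∑ γ ∈ E, (E.card : ℝ)⁻¹ := by
          refine Finset.sum_le_sum fun γ _ => ?_
          rw [hexp', abs_mul, abs_div, abs_inv, abs_of_pos hsq]
          have h1 : (Real.sqrt E.card)⁻¹ * (|θ γ| / Real.sqrt E.card) = |θ γ| * (E.card : ℝ)⁻¹ := by
            rw [div_eq_mul_inv]
            have : (E.card : ℝ)⁻¹ = (Real.sqrt E.card)⁻¹ * (Real.sqrt E.card)⁻¹ := by
              rw [← mul_inv, Real.mul_self_sqrt hN.le]
            rw [this]; ring
          rw [h1]
          have h2 := BB_le_one hb γ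
          have h3 := BB_nonneg hb γ
          have h4 : (0 : ℝ) ≤ (E.card : ℝ)⁻¹ := inv_nonneg.2 hN.le
          calc |θ γ| * (E.card : ℝ)⁻¹ * b γ ≤ 1 * (E.card : ℝ)⁻¹ * 1 := by
                refine mul_le_mul (mul_le_mul_of_nonneg_right (hθ γ) h4) h2 h3 ?_
                positivity
            _ = (E.card : ℝ)⁻¹ := by ring
      _ = 1 := by
          rw [Finset.sum_const, nsmul_eq_mul]
          exact mul_inv_cancel₀ hN.ne'
  · intro a ha
    have h1 := ha _ (BB_ind hE)
    refine le_trans (Finset.sum_le_sum fun γ hγ => ?_) h1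
    refine mul_le_mul_of_nonneg_left ?_ (abs_nonneg _)
    show |Real.exp (-(-(1 / 2 * Real.log E.card))) * (θ γ / Real.sqrt E.card)| ≤
      if γ ∈ E then 1 else 0
    rw [neg_neg, hexp, if_pos hγ, mul_div_cancel₀ _ hsq.ne']
    exact hθ γ

end

end Pool.Agent.Y277.TH
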