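import Pool.Agent.Y277.TH.LN2

set_option autoImplicit false

namespace Pool.Agent.Y277.TH

open Finset Filter Topology

section

variable {Γ : Type} [DecidableEq Γ]

/-- one block -/
theorem block_one {ℱ : Set (Finset Γ)} (hsing : ∀ γ, {γ} ∈ ℱ) (H : Finset Γ) (w u y x : Γ → ℝ)
    (p q N : ℝ) (hp : 0 ≤ p) (hq : 0 ≤ q) (hN : 0 ≤ N)
    (h1 : AL ℱ H (fun γ => Real.exp (u γ) * w γ) p)
    (h2 : AS ℱ H (fun γ => Real.exp (-u γ) * w γ) q)
    (hN1 : ∀ F w u, Adm ℱ F w u → |∑ γ ∈ F, (y γ - x γ * u γ) * w γ| ≤ N)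
    (hN2 : ∑ γ ∈ H, x γ ^ 2 ≤ N ^ 2) :
    |∑ γ ∈ H, (y γ - x γ * u γ) * w γ| ≤ Real.sqrt (p ^ 2 + q ^ 2) * N := by
  have hz : (∀ γ ∈ H, w γ = 0) → |∑ γ ∈ H, (y γ - x γ * u γ) * w γ| ≤
      Real.sqrt (p ^ 2 + q ^ 2) * N := by
    intro h
    rw [Finset.sum_eq_zero (fun γ hγ => by rw [h γ hγ, mul_zero])]
    rw [abs_zero]
    exact mul_nonneg (Real.sqrt_nonneg _) hN
  rcases hp.lt_or_eq with hp' | hp'
  swap
  · apply hz
    intro γ hγ
    have h3 := h1.apply_le hsing hγ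
    rw [← hp'] at h3
    have h4 : Real.exp (u γ) * w γ = 0 := abs_nonpos_iff.1 h3
    rcases mul_eq_zero.1 h4 with h5 | h5
    · exact absurd h5 (Real.exp_pos _).ne'
    · exact h5
  rcases hq.lt_or_eq with hq' | hq'
  swap
  · apply hz
    intro γ hγ
    have h3 := h2 _ (AL_single H (γ := γ))
    rw [Finset.sum_eq_single γ] at h3
    · rw [← hq'] at h3
      simp only [if_true, abs_one, one_mul] at h3
      have h4 : Real.exp (-u γ) * w γ = 0 := abs_nonpos_iff.1 h3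
      rcases mul_eq_zero.1 h4 with h5 | h5
      · exact absurd h5 (Real.exp_pos _).ne'
      · exact h5
    · intro γ' _ hne
      simp [hne]
    · intro h; exact absurd hγ h
  -- main case
  have hpq : 0 < p * q := mul_pos hp' hq'
  let R : ℝ := Real.sqrt (p * q)
  have hR : 0 < R := Real.sqrt_pos.2 hpq
  have hRR : R * R = p * q := Real.mul_self_sqrt hpq.le
  let s : ℝ := Real.log (q / p) / 2
  have hs2 : Real.exp (2 * s) = q / p := by
    have : 2 * s = Real.log (q / p) := by show 2 * (Real.log (q / p) / 2) = _; ring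
    rw [this, Real.exp_log (div_pos hq' hp')]
  have hs2' : Real.exp (-(2 * s)) = p / q := by
    rw [Real.exp_neg, hs2, inv_div]
  -- exp s / R = 1 / p
  have he1 : Real.exp s = R / p := by
    have h3 : (Real.exp s) ^ 2 = (R / p) ^ 2 := by
      rw [← Real.exp_nat_mul, div_pow]
      have : ((2 : ℕ) : ℝ) * s = 2 * s := by norm_num
      rw [this, hs2, sq R, hRR]
      field_simp
    exact (pow_left_inj₀ (Real.exp_pos _).le (div_pos hR hp').le two_ne_zero).1 h3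
  have he2 : Real.exp (-s) = R / q := by
    rw [Real.exp_neg, he1, inv_div]
    rw [div_eq_div_iff hR.ne' hq'.ne']
    rw [hRR]
  have hadm : Adm ℱ H (fun γ => w γ / R) (fun γ => u γ + s) := by
    constructor
    · intro b hb
      have h3 := h1 b hb
      have h4 : ∑ γ ∈ H, |Real.exp (u γ + s) * (w γ / R)| * b γ
          = (∑ γ ∈ H, |Real.exp (u γ) * w γ| * b γ) / p := by
        rw [Finset.sum_div]
        refine Finset.sum_congr rfl fun γ _ => ?_
        rw [Real.exp_add, he1]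
        have : Real.exp (u γ) * (R / p) * (w γ / R) = (Real.exp (u γ) * w γ) / p := by
          field_simp
        rw [this, abs_div, abs_of_pos hp']
        ring
      show ∑ γ ∈ H, |Real.exp (u γ + s) * (w γ / R)| * b γ ≤ 1
      rw [h4]
      exact (div_le_one hp').2 h3
    · intro a ha
      have h3 := h2 a ha
      have h4 : ∑ γ ∈ H, |a γ| * |Real.exp (-(u γ + s)) * (w γ / R)|
          = (∑ γ ∈ H, |a γ| * |Real.exp (-u γ) * w γ|) / q := by
        rw [Finset.sum_div]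
        refine Finset.sum_congr rfl fun γ _ => ?_
        have : Real.exp (-(u γ + s)) * (w γ / R) = (Real.exp (-u γ) * w γ) / q := by
          rw [neg_add, Real.exp_add, he2]
          field_simp
        rw [this, abs_div, abs_of_pos hq']
        ring
      show ∑ γ ∈ H, |a γ| * |Real.exp (-(u γ + s)) * (w γ / R)| ≤ 1
      rw [h4]
      exact (div_le_one hq').2 h3
  have h5 := hN1 _ _ _ hadm
  have h6 : |∑ γ ∈ H, (y γ - x γ * (u γ + s)) * w γ| ≤ R * N := by
    have : ∑ γ ∈ H, (y γ - x γ * (u γ + s)) * w γ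
        = R * ∑ γ ∈ H, (y γ - x γ * (u γ + s)) * (w γ / R) := by
      rw [Finset.mul_sum]
      refine Finset.sum_congr rfl fun γ _ => ?_
      field_simp
    rw [this, abs_mul, abs_of_pos hR]
    exact mul_le_mul_of_nonneg_left h5 hR.le
  -- ∑ w² ≤ p q
  have h7 : ∑ γ ∈ H, w γ ^ 2 ≤ p * q := by
    have h8 : AL ℱ H (fun γ => (Real.exp (u γ) * w γ) / p) 1 := by
      intro b hb
      have h3 := h1 b hb
      have h4 : ∑ γ ∈ H, |(Real.exp (u γ) * w γ) / p| * b γ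
          = (∑ γ ∈ H, |Real.exp (u γ) * w γ| * b γ) / p := by
        rw [Finset.sum_div]
        refine Finset.sum_congr rfl fun γ _ => ?_
        rw [abs_div, abs_of_pos hp']
        ring
      rw [h4]
      exact (div_le_one hp').2 h3
    have h9 := h2 _ h8
    have h10 : ∑ γ ∈ H, |(Real.exp (u γ) * w γ) / p| * |Real.exp (-u γ) * w γ|
        = (∑ γ ∈ H, w γ ^ 2) / p := by
      rw [Finset.sum_div]
      refine Finset.sum_congr rfl fun γ _ => ?_
      rw [abs_div, abs_of_pos hp', abs_mul, abs_mul, Real.abs_exp, Real.abs_exp]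
      have : Real.exp (u γ) * |w γ| / p * (Real.exp (-u γ) * |w γ|)
          = (Real.exp (u γ) * Real.exp (-u γ)) * (|w γ| * |w γ|) / p := by ring
      rw [this, ← Real.exp_add, add_neg_cancel, Real.exp_zero, one_mul, abs_mul_abs_self, sq]
    rw [h10, div_le_iff₀ hp'] at h9
    linarith [mul_comm p q]
  have h8 : |∑ γ ∈ H, x γ * w γ| ≤ N * R := by
    refine abs_le_of_sq_le_sq ?_ (mul_nonneg hN hR.le)
    refine (Finset.sum_mul_sq_le_sq_mul_sq H x w).trans ?_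
    rw [mul_pow]
    refine mul_le_mul hN2 ?_ (Finset.sum_nonneg fun _ _ => sq_nonneg _) (sq_nonneg _)
    rw [sq, hRR]; exact h7
  have h9 : ∑ γ ∈ H, (y γ - x γ * u γ) * w γ
      = ∑ γ ∈ H, (y γ - x γ * (u γ + s)) * w γ + s * ∑ γ ∈ H, x γ * w γ := by
    rw [Finset.mul_sum, ← Finset.sum_add_distrib]
    refine Finset.sum_congr rfl fun γ _ => ?_
    ring
  have h10 : |∑ γ ∈ H, (y γ - x γ * u γ) * w γ| ≤ (R * (1 + |s|)) * N := by
    rw [h9]
    refine (abs_add_le _ _).trans ?_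
    rw [abs_mul]
    have := mul_le_mul_of_nonneg_left h8 (abs_nonneg s)
    nlinarith
  refine h10.trans (mul_le_mul_of_nonneg_right ?_ hN)
  refine Real.le_sqrt_of_sq_le ?_
  have h11 : (1 + |s|) ^ 2 ≤ q / p + p / q := by
    have h12 : 1 + |s| ≤ Real.exp |s| := by linarith [Real.add_one_le_exp |s|]
    have h13 : (1 + |s|) ^ 2 ≤ (Real.exp |s|) ^ 2 :=
      pow_le_pow_left₀ (by positivity) h12 2
    have h14 : (Real.exp |s|) ^ 2 = Real.exp (2 * |s|) := by
      rw [← Real.exp_nat_mul]; norm_num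
    rw [← hs2, ← hs2']
    refine h13.trans ?_
    rw [h14]
    rcases abs_cases s with ⟨h, _⟩ | ⟨h, _⟩
    · rw [h]; linarith [Real.exp_pos (-(2 * s))]
    · rw [h]
      have : 2 * -s = -(2 * s) := by ring
      rw [this]
      linarith [Real.exp_pos (2 * s)]
  have h15 : (R * (1 + |s|)) ^ 2 = (p * q) * (1 + |s|) ^ 2 := by
    rw [mul_pow, sq R, hRR]
  rw [h15]
  calc p * q * (1 + |s|) ^ 2 ≤ p * q * (q / p + p / q) :=
        mul_le_mul_of_nonneg_left h11 hpq.le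
    _ = p ^ 2 + q ^ 2 := by field_simp; ring

theorem sum_sq_sSup_le {ι : Type} [Fintype ι] (R : ι → Set ℝ) (hne : ∀ i, (R i).Nonempty)
    (hbdd : ∀ i, BddAbove (R i)) (K : ℝ)
    (h : ∀ ρ : ι → ℝ, (∀ i, ρ i ∈ R i) → ∑ i, ρ i ^ 2 ≤ K) :
    ∑ i, (sSup (R i)) ^ 2 ≤ K := by
  have h1 : ∀ i, ∃ v : ℕ → ℝ, Tendsto v atTop (𝓝 (sSup (R i))) ∧ ∀ n, v n ∈ R i := by
    intro i
    obtain ⟨v, _, hv2, hv3⟩ := exists_seq_tendsto_sSup (hne i) (hbdd i)
    exact ⟨v, hv2, hv3⟩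
  choose v hv1 hv2 using h1
  have h2 : Tendsto (fun n => ∑ i, (v i n) ^ 2) atTop (𝓝 (∑ i, (sSup (R i)) ^ 2)) :=
    tendsto_finsetSum _ fun i _ => (hv1 i).pow 2
  exact le_of_tendsto' h2 fun n => h (fun i => v i n) fun i => hv2 i n

/-- The block estimate. -/
theorem block_bound {ℱ : Set (Finset Γ)} (hsub : ∀ E ∈ ℱ, ∀ E', E' ⊆ E → E' ∈ ℱ)
    (hsing : ∀ γ, {γ} ∈ ℱ) (hemp : ∅ ∈ ℱ) {ι : Type} [Fintype ι] (S : ι → Finset Γ)
    (hS : Pairwise fun i j => Disjoint (S i) (S j)) (m : ℕ) (hm1 : 1 ≤ m)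
    (hm : ∀ E ∈ ℱ, (univ.filter fun i => ¬ Disjoint E (S i)).card ≤ m)
    (y x : ι → Γ → ℝ) (hy0 : ∀ i, ∀ γ, γ ∉ S i → y i γ = 0) (hx0 : ∀ i, ∀ γ, γ ∉ S i → x i γ = 0)
    (N : ι → ℝ) (hN : ∀ i, 0 ≤ N i)
    (hN1 : ∀ i, ∀ F w u, Adm ℱ F w u → |∑ γ ∈ F, (y i γ - x i γ * u γ) * w γ| ≤ N i)
    (hN2 : ∀ i, ∑ γ ∈ S i, x i γ ^ 2 ≤ N i ^ 2) (F : Finset Γ) (w u : Γ → ℝ)
    (hadm : Adm ℱ F w u) :
    |∑ γ ∈ F, ((∑ i, y i γ) - (∑ i, x i γ) * u γ) * w γ| ≤
      Real.sqrt (1 + m) * Real.sqrt (∑ i, N i ^ 2) := by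
  classical
  have hm0 : (0 : ℝ) < m := by exact_mod_cast hm1
  let H : ι → Finset Γ := fun i => F ∩ S i
  have hHF : ∀ i, H i ⊆ F := fun i => Finset.inter_subset_left
  have hHS : ∀ i, H i ⊆ S i := fun i => Finset.inter_subset_right
  let e1 : Γ → ℝ := fun γ => Real.exp (u γ) * w γ
  let e2 : Γ → ℝ := fun γ => Real.exp (-u γ) * w γ
  let P : ι → Set ℝ := fun i => {r | ∃ b ∈ BB ℱ, r = ∑ γ ∈ H i, |e1 γ| * b γ}
  let Q : ι → Set ℝ := fun i => {r | ∃ a, AL ℱ (H i) a 1 ∧ r = ∑ γ ∈ H i, |a γ| * |e2 γ|}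
  have hPne : ∀ i, (P i).Nonempty := fun i => ⟨_, _, BB_ind hemp, rfl⟩
  have hQne : ∀ i, (Q i).Nonempty := fun i => ⟨_, fun _ => 0, fun b _ => by simp, rfl⟩
  have hPb : ∀ i, BddAbove (P i) := fun i => ⟨1, by
    rintro r ⟨b, hb, rfl⟩
    exact (hadm.1.mono (hHF i) fun γ _ => le_refl _) b hb⟩
  have hQb : ∀ i, BddAbove (Q i) := fun i => ⟨1, by
    rintro r ⟨a, ha, rfl⟩
    exact (hadm.2.mono (hHF i) fun γ _ => le_refl _) a ha⟩
  let p : ι → ℝ := fun i => sSup (P i)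
  let q : ι → ℝ := fun i => sSup (Q i)
  have hp0 : ∀ i, 0 ≤ p i := by
    intro i
    have h1 : ∑ γ ∈ H i, |e1 γ| * (fun γ => if γ ∈ (∅ : Finset Γ) then (1 : ℝ) else 0) γ ∈ P i :=
      ⟨_, BB_ind hemp, rfl⟩
    have h2 := le_csSup (hPb i) h1
    refine le_trans (Finset.sum_nonneg fun γ _ => ?_) h2
    simp
  have hq0 : ∀ i, 0 ≤ q i := by
    intro i
    have h1 : ∑ γ ∈ H i, |(fun _ : Γ => (0 : ℝ)) γ| * |e2 γ| ∈ Q i :=
      ⟨fun _ => 0, fun b _ => by simp, rfl⟩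
    have h2 := le_csSup (hQb i) h1
    refine le_trans (Finset.sum_nonneg fun γ _ => ?_) h2
    simp
  -- auxiliary: summing over blocks
  have hblock : ∀ g : ι → Γ → ℝ, ∑ γ ∈ F, (∑ i, if γ ∈ S i then g i γ else 0)
      = ∑ i, ∑ γ ∈ H i, g i γ := by
    intro g
    rw [Finset.sum_comm]
    refine Finset.sum_congr rfl fun i _ => ?_
    rw [← Finset.sum_filter]
    refine Finset.sum_congr ?_ fun γ _ => rfl
    ext γ
    simp [H]
  -- at most one block contains a given point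
  have hone : ∀ γ, ∀ g : ι → ℝ, (∀ i, 0 ≤ g i) →
      |∑ i, if γ ∈ S i then g i else 0| = ∑ i, if γ ∈ S i then g i else 0 := by
    intro γ g hg
    refine abs_of_nonneg (Finset.sum_nonneg fun i _ => ?_)
    split_ifs
    · exact hg i
    · exact le_refl _
  have hsump : ∑ i, p i ^ 2 ≤ 1 := by
    refine sum_sq_sSup_le P hPne hPb 1 fun ρ hρ => ?_
    choose b hb hρb using hρ
    have hρ0 : ∀ i, 0 ≤ ρ i := fun i => by
      rw [hρb]
      exact Finset.sum_nonneg fun γ _ => mul_nonneg (abs_nonneg _) (BB_nonneg (hb i) γ)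
    let T : ℝ := ∑ i, ρ i ^ 2
    have hT0 : 0 ≤ T := Finset.sum_nonneg fun _ _ => sq_nonneg _
    rcases hT0.lt_or_eq with hT | hT
    swap
    · show T ≤ 1
      rw [← hT]; exact zero_le_one
    have hsT : 0 < Real.sqrt T := Real.sqrt_pos.2 hT
    have hmem := BB_comb hsub S hS b hb (fun i => ρ i / Real.sqrt T)
      (fun i => div_nonneg (hρ0 i) hsT.le) (by
        have : ∑ i, (ρ i / Real.sqrt T) ^ 2 = T / (Real.sqrt T) ^ 2 := by
          rw [Finset.sum_div]
          exact Finset.sum_congr rfl fun i _ => by rw [div_pow]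
        rw [this, Real.sq_sqrt hT0, div_self hT.ne'])
    have h1 := hadm.1 _ hmem
    have h2 : ∑ γ ∈ F, |e1 γ| * (∑ i, if γ ∈ S i then ρ i / Real.sqrt T * b i γ else 0)
        = Real.sqrt T := by
      have h3 : ∑ γ ∈ F, |e1 γ| * (∑ i, if γ ∈ S i then ρ i / Real.sqrt T * b i γ else 0)
          = ∑ γ ∈ F, ∑ i, if γ ∈ S i then |e1 γ| * (ρ i / Real.sqrt T * b i γ) else 0 := by
        refine Finset.sum_congr rfl fun γ _ => ?_
        rw [Finset.mul_sum]
        refine Finset.sum_congr rfl fun i _ => ?_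
        split_ifs <;> simp
      rw [h3, hblock (fun i γ => |e1 γ| * (ρ i / Real.sqrt T * b i γ))]
      have h4 : ∀ i, ∑ γ ∈ H i, |e1 γ| * (ρ i / Real.sqrt T * b i γ)
          = ρ i ^ 2 / Real.sqrt T := by
        intro i
        have : ∑ γ ∈ H i, |e1 γ| * (ρ i / Real.sqrt T * b i γ)
            = (ρ i / Real.sqrt T) * ∑ γ ∈ H i, |e1 γ| * b i γ := by
          rw [Finset.mul_sum]
          exact Finset.sum_congr rfl fun γ _ => by ring
        rw [this, ← hρb i]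
        ring
      rw [Finset.sum_congr rfl fun i _ => h4 i, ← Finset.sum_div]
      show T / Real.sqrt T = Real.sqrt T
      exact Real.div_sqrt
    have h5 : Real.sqrt T ≤ 1 := by rw [← h2]; exact h1
    have h6 : T = Real.sqrt T ^ 2 := (Real.sq_sqrt hT0).symm
    show T ≤ 1
    rw [h6]
    exact pow_le_one₀ hsT.le h5
  have hsumq : ∑ i, q i ^ 2 ≤ m := by
    refine sum_sq_sSup_le Q hQne hQb m fun ρ hρ => ?_
    choose a ha hρa using hρ
    have hρ0 : ∀ i, 0 ≤ ρ i := fun i => by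
      rw [hρa]
      exact Finset.sum_nonneg fun γ _ => mul_nonneg (abs_nonneg _) (abs_nonneg _)
    let T : ℝ := ∑ i, ρ i ^ 2
    have hT0 : 0 ≤ T := Finset.sum_nonneg fun _ _ => sq_nonneg _
    rcases hT0.lt_or_eq with hT | hT
    swap
    · show T ≤ m
      rw [← hT]; exact hm0.le
    have hsT : 0 < Real.sqrt T := Real.sqrt_pos.2 hT
    have hsm : 0 < Real.sqrt m := Real.sqrt_pos.2 hm0
    let t : ι → ℝ := fun i => ρ i / Real.sqrt T
    have ht0 : ∀ i, 0 ≤ t i := fun i => div_nonneg (hρ0 i) hsT.le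
    have ht2 : ∑ i, t i ^ 2 = 1 := by
      have : ∑ i, (ρ i / Real.sqrt T) ^ 2 = T / (Real.sqrt T) ^ 2 := by
        rw [Finset.sum_div]
        exact Finset.sum_congr rfl fun i _ => by rw [div_pow]
      show ∑ i, (ρ i / Real.sqrt T) ^ 2 = 1
      rw [this, Real.sq_sqrt hT0, div_self hT.ne']
    let A : Γ → ℝ := fun γ => ∑ i, if γ ∈ S i then t i / Real.sqrt m * |a i γ| else 0
    have hA0 : ∀ γ, |A γ| = A γ := fun γ =>
      hone γ (fun i => t i / Real.sqrt m * |a i γ|)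
        (fun i => mul_nonneg (div_nonneg (ht0 i) hsm.le) (abs_nonneg _))
    have hAL : AL ℱ F A 1 := by
      intro b hb
      obtain ⟨β, b', hβ0, hβ2, hb', hbb⟩ := BB_split S m hm hb
      have h3 : ∑ γ ∈ F, |A γ| * b γ
          = ∑ γ ∈ F, ∑ i, if γ ∈ S i then t i / Real.sqrt m * |a i γ| * b γ else 0 := by
        refine Finset.sum_congr rfl fun γ _ => ?_
        rw [hA0, Finset.sum_mul]
        refine Finset.sum_congr rfl fun i _ => ?_
        split_ifs <;> simp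
      rw [h3, hblock (fun i γ => t i / Real.sqrt m * |a i γ| * b γ)]
      have h4 : ∀ i, ∑ γ ∈ H i, t i / Real.sqrt m * |a i γ| * b γ
          ≤ (t i * β i) / Real.sqrt m := by
        intro i
        have h5 : ∑ γ ∈ H i, t i / Real.sqrt m * |a i γ| * b γ
            = (t i * β i) / Real.sqrt m * ∑ γ ∈ H i, |a i γ| * b' i γ := by
          rw [Finset.mul_sum]
          refine Finset.sum_congr rfl fun γ hγ => ?_
          rw [hbb i γ (hHS i hγ)]
          ring
        rw [h5]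
        have h6 := ha i _ (hb' i)
        have h7 : 0 ≤ (t i * β i) / Real.sqrt m :=
          div_nonneg (mul_nonneg (ht0 i) (hβ0 i)) hsm.le
        calc (t i * β i) / Real.sqrt m * ∑ γ ∈ H i, |a i γ| * b' i γ
            ≤ (t i * β i) / Real.sqrt m * 1 := mul_le_mul_of_nonneg_left h6 h7
          _ = _ := mul_one _
      refine (Finset.sum_le_sum fun i _ => h4 i).trans ?_
      rw [← Finset.sum_div, div_le_one hsm]
      have h8 : (∑ i, t i * β i) ^ 2 ≤ m := by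
        refine (Finset.sum_mul_sq_le_sq_mul_sq univ t β).trans ?_
        rw [ht2, one_mul]; exact hβ2
      exact Real.le_sqrt_of_sq_le h8
    have h1 := hadm.2 A hAL
    have h2 : ∑ γ ∈ F, |A γ| * |e2 γ| = Real.sqrt T / Real.sqrt m := by
      have h3 : ∑ γ ∈ F, |A γ| * |e2 γ|
          = ∑ γ ∈ F, ∑ i, if γ ∈ S i then t i / Real.sqrt m * |a i γ| * |e2 γ| else 0 := by
        refine Finset.sum_congr rfl fun γ _ => ?_
        rw [hA0, Finset.sum_mul]
        refine Finset.sum_congr rfl fun i _ => ?_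
        split_ifs <;> simp
      rw [h3, hblock (fun i γ => t i / Real.sqrt m * |a i γ| * |e2 γ|)]
      have h4 : ∀ i, ∑ γ ∈ H i, t i / Real.sqrt m * |a i γ| * |e2 γ|
          = ρ i ^ 2 / (Real.sqrt T * Real.sqrt m) := by
        intro i
        have : ∑ γ ∈ H i, t i / Real.sqrt m * |a i γ| * |e2 γ|
            = (t i / Real.sqrt m) * ∑ γ ∈ H i, |a i γ| * |e2 γ| := by
          rw [Finset.mul_sum]
          exact Finset.sum_congr rfl fun γ _ => by ring
        rw [this, ← hρa i]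
        show ρ i / Real.sqrt T / Real.sqrt m * ρ i = _
        field_simp
      rw [Finset.sum_congr rfl fun i _ => h4 i, ← Finset.sum_div]
      show T / (Real.sqrt T * Real.sqrt m) = Real.sqrt T / Real.sqrt m
      rw [← div_div, Real.div_sqrt]
    have h5 : Real.sqrt T / Real.sqrt m ≤ 1 := by rw [← h2]; exact h1
    rw [div_le_one hsm] at h5
    exact (Real.sqrt_le_sqrt_iff hm0.le).1 h5
  -- individual blocks
  have hV : ∀ i, |∑ γ ∈ H i, (y i γ - x i γ * u γ) * w γ| ≤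
      Real.sqrt (p i ^ 2 + q i ^ 2) * N i := by
    intro i
    refine block_one hsing (H i) w u (y i) (x i) (p i) (q i) (N i) (hp0 i) (hq0 i) (hN i)
      ?_ ?_ (hN1 i) ?_
    · intro b hb
      exact le_csSup (hPb i) ⟨b, hb, rfl⟩
    · intro a ha
      exact le_csSup (hQb i) ⟨a, ha, rfl⟩
    · exact (Finset.sum_le_sum_of_subset_of_nonneg (hHS i) fun γ _ _ => sq_nonneg _).trans (hN2 i)
  have hsum : ∑ γ ∈ F, ((∑ i, y i γ) - (∑ i, x i γ) * u γ) * w γ
      = ∑ i, ∑ γ ∈ H i, (y i γ - x i γ * u γ) * w γ := by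
    rw [← hblock (fun i γ => (y i γ - x i γ * u γ) * w γ)]
    refine Finset.sum_congr rfl fun γ _ => ?_
    rw [Finset.sum_mul, ← Finset.sum_sub_distrib, Finset.sum_mul]
    refine Finset.sum_congr rfl fun i _ => ?_
    split_ifs with h
    · rfl
    · rw [hy0 i γ h, hx0 i γ h]; ring
  rw [hsum]
  refine (Finset.abs_sum_le_sum_abs _ _).trans ?_
  refine (Finset.sum_le_sum fun i _ => hV i).trans ?_
  rw [← Real.sqrt_mul (by positivity)]
  refine Real.le_sqrt_of_sq_le ?_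
  refine (Finset.sum_mul_sq_le_sq_mul_sq univ _ _).trans ?_
  refine mul_le_mul_of_nonneg_right ?_ (Finset.sum_nonneg fun _ _ => sq_nonneg _)
  calc ∑ i, Real.sqrt (p i ^ 2 + q i ^ 2) ^ 2 = ∑ i, (p i ^ 2 + q i ^ 2) :=
        Finset.sum_congr rfl fun i _ => Real.sq_sqrt (by positivity)
    _ = ∑ i, p i ^ 2 + ∑ i, q i ^ 2 := Finset.sum_add_distrib
    _ ≤ 1 + m := add_le_add hsump hsumq

end

end Pool.Agent.Y277.TH
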