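import Pool.Agent.Y277.TH.LN3

set_option autoImplicit false

namespace Pool.Agent.Y277.TH

open Finset Filter Topology

section

variable {Γ : Type} [DecidableEq Γ]

/-- the indices: admissible triples -/
structure Idx (ℱ : Set (Finset Γ)) where
  F : Finset Γ
  w : Γ → ℝ
  u : Γ → ℝ
  adm : Adm ℱ F w u

abbrev H2 (Γ : Type) := lp (fun _ : Γ => ℝ) 2
abbrev Z1 (ℱ : Set (Finset Γ)) := lp (fun _ : Idx ℱ => ℝ) ⊤
abbrev ZZ (ℱ : Set (Finset Γ)) := Z1 ℱ × H2 Γ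

/-- the pairing -/
def pr {ℱ : Set (Finset Γ)} (y x : Γ → ℝ) (i : Idx ℱ) : ℝ :=
  ∑ γ ∈ i.F, (y γ - x γ * i.u γ) * i.w γ

omit [DecidableEq Γ] in
theorem h2_sum_le (f : H2 Γ) (F : Finset Γ) : ∑ γ ∈ F, f γ ^ 2 ≤ ‖f‖ ^ 2 := by
  have h := lp.sum_rpow_le_norm_rpow (p := 2) (by norm_num) f F
  simpa using h

omit [DecidableEq Γ] in
theorem h2_norm_le (f : H2 Γ) (C : ℝ) (hC : 0 ≤ C) (h : ∀ F : Finset Γ, ∑ γ ∈ F, f γ ^ 2 ≤ C ^ 2) :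
    ‖f‖ ≤ C := by
  refine lp.norm_le_of_forall_sum_le (p := 2) (by norm_num) hC fun F => ?_
  simpa using h F

omit [DecidableEq Γ] in
theorem memlp2 (y : Γ → ℝ) (C : ℝ) (h : ∀ F : Finset Γ, ∑ γ ∈ F, y γ ^ 2 ≤ C) :
    Memℓp y 2 := by
  refine memℓp_gen' (C := C) fun F => ?_
  simpa using h F

omit [DecidableEq Γ] in
theorem finsupp_sum_le (y : Γ →₀ ℝ) (F : Finset Γ) :
    ∑ γ ∈ F, y γ ^ 2 ≤ ∑ γ ∈ y.support, y γ ^ 2 := by
  classical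
  calc ∑ γ ∈ F, y γ ^ 2 = ∑ γ ∈ F ∩ y.support, y γ ^ 2 := by
        refine (Finset.sum_subset Finset.inter_subset_left ?_).symm
        intro γ h1 h2
        have : γ ∉ y.support := fun h => h2 (Finset.mem_inter.2 ⟨h1, h⟩)
        rw [Finsupp.notMem_support_iff.1 this]; simp
    _ ≤ _ := Finset.sum_le_sum_of_subset_of_nonneg Finset.inter_subset_right
        fun _ _ _ => sq_nonneg _

variable {ℱ : Set (Finset Γ)}

theorem Idx.w_le_one (hsing : ∀ γ, {γ} ∈ ℱ) (i : Idx ℱ) {γ : Γ} (hγ : γ ∈ i.F) :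
    |i.w γ| ≤ 1 := by
  have h := i.adm.w_le hsing hγ
  have h1 : 1 ≤ Real.exp |i.u γ| := Real.one_le_exp (abs_nonneg _)
  nlinarith [abs_nonneg (i.w γ)]

theorem Idx.uw_le_one (hsing : ∀ γ, {γ} ∈ ℱ) (i : Idx ℱ) {γ : Γ} (hγ : γ ∈ i.F) :
    |i.u γ| * |i.w γ| ≤ 1 := by
  have h := i.adm.w_le hsing hγ
  have h1 : |i.u γ| ≤ Real.exp |i.u γ| := by linarith [Real.add_one_le_exp |i.u γ|]
  nlinarith [abs_nonneg (i.w γ)]

theorem pr_bdd (hsing : ∀ γ, {γ} ∈ ℱ) (y x : Γ →₀ ℝ) (i : Idx ℱ) :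
    |pr y x i| ≤ ∑ γ ∈ y.support ∪ x.support, (|y γ| + |x γ|) := by
  have h1 : ∀ γ ∈ i.F, |(y γ - x γ * i.u γ) * i.w γ| ≤ |y γ| + |x γ| := by
    intro γ hγ
    have h2 := i.w_le_one hsing hγ
    have h3 := i.uw_le_one hsing hγ
    calc |(y γ - x γ * i.u γ) * i.w γ| = |y γ * i.w γ - x γ * (i.u γ * i.w γ)| := by ring_nf
      _ ≤ |y γ * i.w γ| + |x γ * (i.u γ * i.w γ)| := abs_sub _ _
      _ = |y γ| * |i.w γ| + |x γ| * (|i.u γ| * |i.w γ|) := by rw [abs_mul, abs_mul, abs_mul]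
      _ ≤ |y γ| * 1 + |x γ| * 1 := add_le_add
          (mul_le_mul_of_nonneg_left h2 (abs_nonneg _))
          (mul_le_mul_of_nonneg_left h3 (abs_nonneg _))
      _ = _ := by ring
  refine (Finset.abs_sum_le_sum_abs _ _).trans ?_
  refine (Finset.sum_le_sum h1).trans ?_
  calc ∑ γ ∈ i.F, (|y γ| + |x γ|) = ∑ γ ∈ i.F ∩ (y.support ∪ x.support), (|y γ| + |x γ|) := by
        refine (Finset.sum_subset Finset.inter_subset_left ?_).symm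
        intro γ h4 h5
        have h6 : γ ∉ y.support ∪ x.support := fun h => h5 (Finset.mem_inter.2 ⟨h4, h⟩)
        rw [Finset.mem_union, not_or] at h6
        rw [Finsupp.notMem_support_iff.1 h6.1, Finsupp.notMem_support_iff.1 h6.2]
        simp
    _ ≤ _ := Finset.sum_le_sum_of_subset_of_nonneg Finset.inter_subset_right
        fun _ _ _ => by positivity

/-- first component of the embedding -/
noncomputable def Phi1 (hsing : ∀ γ, {γ} ∈ ℱ) (y x : Γ →₀ ℝ) : Z1 ℱ :=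
  ⟨fun i => pr y x i, memℓp_infty ⟨∑ γ ∈ y.support ∪ x.support, (|y γ| + |x γ|), by
    rintro r ⟨i, rfl⟩
    exact pr_bdd hsing y x i⟩⟩

/-- second component -/
noncomputable def Phi2 (x : Γ →₀ ℝ) : H2 Γ :=
  ⟨fun γ => x γ, memlp2 _ _ (finsupp_sum_le x)⟩

/-- the embedding of the finitely supported pairs -/
noncomputable def Phi (hsing : ∀ γ, {γ} ∈ ℱ) : ((Γ →₀ ℝ) × (Γ →₀ ℝ)) →ₗ[ℝ] ZZ ℱ where
  toFun p := (Phi1 hsing p.1 p.2, Phi2 p.2)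
  map_add' p q := by
    refine Prod.ext ?_ ?_
    · ext i
      show pr (p.1 + q.1 : Γ →₀ ℝ) (p.2 + q.2 : Γ →₀ ℝ) i = pr p.1 p.2 i + pr q.1 q.2 i
      unfold pr
      rw [← Finset.sum_add_distrib]
      refine Finset.sum_congr rfl fun γ _ => ?_
      simp only [Finsupp.coe_add, Pi.add_apply]
      ring
    · ext γ
      rfl
  map_smul' c p := by
    refine Prod.ext ?_ ?_
    · ext i
      show pr (c • p.1 : Γ →₀ ℝ) (c • p.2 : Γ →₀ ℝ) i = c * pr p.1 p.2 i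
      unfold pr
      rw [Finset.mul_sum]
      refine Finset.sum_congr rfl fun γ _ => ?_
      simp only [Finsupp.coe_smul, Pi.smul_apply, smul_eq_mul]
      ring
    · ext γ
      rfl

theorem Phi_fst (hsing : ∀ γ, {γ} ∈ ℱ) (p : (Γ →₀ ℝ) × (Γ →₀ ℝ)) (i : Idx ℱ) :
    (Phi hsing p).1 i = pr p.1 p.2 i := rfl

theorem Phi_snd (hsing : ∀ γ, {γ} ∈ ℱ) (p : (Γ →₀ ℝ) × (Γ →₀ ℝ)) (γ : Γ) :
    (Phi hsing p).2 γ = p.2 γ := rfl

/-- the space -/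
noncomputable def XX (hsing : ∀ γ, {γ} ∈ ℱ) : Submodule ℝ (ZZ ℱ) :=
  (LinearMap.range (Phi hsing)).topologicalClosure

theorem XX_closed (hsing : ∀ γ, {γ} ∈ ℱ) : IsClosed (XX hsing : Set (ZZ ℱ)) :=
  Submodule.isClosed_topologicalClosure _

theorem Phi_mem (hsing : ∀ γ, {γ} ∈ ℱ) (p : (Γ →₀ ℝ) × (Γ →₀ ℝ)) : Phi hsing p ∈ XX hsing :=
  Submodule.le_topologicalClosure _ ⟨p, rfl⟩

/-- the index of a point -/
def idx1 (hsing : ∀ γ, {γ} ∈ ℱ) (γ : Γ) : Idx ℱ where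
  F := {γ}
  w := fun _ => 1
  u := fun _ => 0
  adm := by
    constructor
    · intro b hb
      simp [BB_le_one hb γ]
    · intro a ha
      have := ha.apply_le hsing (Finset.mem_singleton_self γ)
      simpa using this

/-- coordinate functionals -/
noncomputable def cx (hsing : ∀ γ, {γ} ∈ ℱ) (γ : Γ) : ZZ ℱ →L[ℝ] ℝ :=
  (lp.evalCLM (𝕜 := ℝ) (fun _ : Γ => ℝ) 2 γ).comp (ContinuousLinearMap.snd ℝ (Z1 ℱ) (H2 Γ))

noncomputable def cI (i : Idx ℱ) : ZZ ℱ →L[ℝ] ℝ :=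
  (lp.evalCLM (𝕜 := ℝ) (fun _ : Idx ℱ => ℝ) ⊤ i).comp (ContinuousLinearMap.fst ℝ (Z1 ℱ) (H2 Γ))

noncomputable def cy (hsing : ∀ γ, {γ} ∈ ℱ) (γ : Γ) : ZZ ℱ →L[ℝ] ℝ := cI (idx1 hsing γ)

theorem cx_apply (hsing : ∀ γ, {γ} ∈ ℱ) (γ : Γ) (z : ZZ ℱ) : cx hsing γ z = z.2 γ := rfl
theorem cI_apply (i : Idx ℱ) (z : ZZ ℱ) : cI i z = z.1 i := rfl
theorem cy_apply (hsing : ∀ γ, {γ} ∈ ℱ) (γ : Γ) (z : ZZ ℱ) :
    cy hsing γ z = z.1 (idx1 hsing γ) := rfl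

theorem cy_Phi (hsing : ∀ γ, {γ} ∈ ℱ) (γ : Γ) (p : (Γ →₀ ℝ) × (Γ →₀ ℝ)) :
    cy hsing γ (Phi hsing p) = p.1 γ := by
  rw [cy_apply, Phi_fst]
  simp [pr, idx1]

theorem cx_Phi (hsing : ∀ γ, {γ} ∈ ℱ) (γ : Γ) (p : (Γ →₀ ℝ) × (Γ →₀ ℝ)) :
    cx hsing γ (Phi hsing p) = p.2 γ := rfl

theorem cI_le (i : Idx ℱ) (z : ZZ ℱ) : |cI i z| ≤ ‖z‖ := by
  rw [cI_apply]
  exact (lp.norm_apply_le_norm (by simp) z.1 i).trans (norm_fst_le z)

theorem cy_le (hsing : ∀ γ, {γ} ∈ ℱ) (γ : Γ) (z : ZZ ℱ) : |cy hsing γ z| ≤ ‖z‖ := cI_le _ z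

theorem cx_le (hsing : ∀ γ, {γ} ∈ ℱ) (γ : Γ) (z : ZZ ℱ) : |cx hsing γ z| ≤ ‖z‖ := by
  rw [cx_apply]
  exact (lp.norm_apply_le_norm (by simp) z.2 γ).trans (norm_snd_le z)

/-- elements of the space are given by their coordinates -/
theorem XX_formula (hsing : ∀ γ, {γ} ∈ ℱ) {z : ZZ ℱ} (hz : z ∈ XX hsing) (i : Idx ℱ) :
    z.1 i = ∑ γ ∈ i.F, (cy hsing γ z - cx hsing γ z * i.u γ) * i.w γ := by
  let L : ZZ ℱ →L[ℝ] ℝ := cI i - ∑ γ ∈ i.F, i.w γ • (cy hsing γ - i.u γ • cx hsing γ)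
  have hL : ∀ z, L z = z.1 i - ∑ γ ∈ i.F, (cy hsing γ z - cx hsing γ z * i.u γ) * i.w γ := by
    intro z
    simp only [L, ContinuousLinearMap.sub_apply, ContinuousLinearMap.sum_apply,
      ContinuousLinearMap.smul_apply, smul_eq_mul]
    rw [cI_apply]
    congr 1
    refine Finset.sum_congr rfl fun γ _ => ?_
    ring
  have h1 : XX hsing ≤ LinearMap.ker (L : ZZ ℱ →ₗ[ℝ] ℝ) := by
    refine Submodule.topologicalClosure_minimal _ ?_ ?_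
    · rintro _ ⟨p, rfl⟩
      rw [LinearMap.mem_ker]
      show L (Phi hsing p) = 0
      rw [hL, Phi_fst, sub_eq_zero]
      unfold pr
      refine Finset.sum_congr rfl fun γ _ => ?_
      rw [cy_Phi, cx_Phi]
    · exact L.isClosed_ker
  have h2 := h1 hz
  rw [LinearMap.mem_ker] at h2
  have h3 : L z = 0 := h2
  rw [hL, sub_eq_zero] at h3
  exact h3

/-- norm bound -/
theorem XX_norm_le (hsing : ∀ γ, {γ} ∈ ℱ) {z : ZZ ℱ} (hz : z ∈ XX hsing) (C : ℝ) (hC : 0 ≤ C)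
    (h1 : ∀ i : Idx ℱ, |∑ γ ∈ i.F, (cy hsing γ z - cx hsing γ z * i.u γ) * i.w γ| ≤ C)
    (h2 : ∀ F : Finset Γ, ∑ γ ∈ F, (cx hsing γ z) ^ 2 ≤ C ^ 2) : ‖z‖ ≤ C := by
  rw [Prod.norm_def]
  refine max_le ?_ ?_
  · refine lp.norm_le_of_forall_le hC fun i => ?_
    rw [XX_formula hsing hz i]
    exact h1 i
  · exact h2_norm_le _ C hC h2

theorem Phi_norm_le (hsing : ∀ γ, {γ} ∈ ℱ) (y x : Γ →₀ ℝ) (C : ℝ) (hC : 0 ≤ C)
    (h1 : ∀ i : Idx ℱ, |pr y x i| ≤ C) (h2 : ∑ γ ∈ x.support, x γ ^ 2 ≤ C ^ 2) :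
    ‖Phi hsing (y, x)‖ ≤ C := by
  rw [Prod.norm_def]
  refine max_le ?_ ?_
  · refine lp.norm_le_of_forall_le hC fun i => h1 i
  · exact h2_norm_le _ C hC fun F => (finsupp_sum_le x F).trans h2

theorem pr_le_norm (hsing : ∀ γ, {γ} ∈ ℱ) (y x : Γ →₀ ℝ) (i : Idx ℱ) :
    |pr y x i| ≤ ‖Phi hsing (y, x)‖ := cI_le i (Phi hsing (y, x))

theorem sum_sq_le_norm (hsing : ∀ γ, {γ} ∈ ℱ) (y x : Γ →₀ ℝ) (F : Finset Γ) :
    ∑ γ ∈ F, x γ ^ 2 ≤ ‖Phi hsing (y, x)‖ ^ 2 := by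
  have h1 : ∑ γ ∈ F, x γ ^ 2 ≤ ‖(Phi hsing (y, x)).2‖ ^ 2 := h2_sum_le (Phi hsing (y, x)).2 F
  exact h1.trans (pow_le_pow_left₀ (norm_nonneg _) (norm_snd_le _) 2)

/-- the unit vectors -/
noncomputable def ex (hsing : ∀ γ, {γ} ∈ ℱ) (γ : Γ) : ZZ ℱ := Phi hsing (0, Finsupp.single γ 1)
noncomputable def ey (hsing : ∀ γ, {γ} ∈ ℱ) (γ : Γ) : ZZ ℱ := Phi hsing (Finsupp.single γ 1, 0)

theorem ex_norm_le (hsing : ∀ γ, {γ} ∈ ℱ) (γ : Γ) : ‖ex hsing γ‖ ≤ 1 := by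
  refine Phi_norm_le hsing _ _ 1 zero_le_one ?_ ?_
  · intro i
    unfold pr
    by_cases hγ : γ ∈ i.F
    · rw [Finset.sum_eq_single γ]
      · have := i.uw_le_one hsing hγ
        simpa [abs_mul] using this
      · intro γ' _ hne
        simp [Finsupp.single_eq_of_ne hne]
      · intro h; exact absurd hγ h
    · rw [Finset.sum_eq_zero]
      · simp
      · intro γ' hγ'
        have hne : γ' ≠ γ := fun h => hγ (h ▸ hγ')
        simp [Finsupp.single_eq_of_ne hne]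
  · rw [Finsupp.support_single_ne_zero _ one_ne_zero]
    simp

theorem ey_norm_le (hsing : ∀ γ, {γ} ∈ ℱ) (γ : Γ) : ‖ey hsing γ‖ ≤ 1 := by
  refine Phi_norm_le hsing _ _ 1 zero_le_one ?_ ?_
  · intro i
    unfold pr
    by_cases hγ : γ ∈ i.F
    · rw [Finset.sum_eq_single γ]
      · have := i.w_le_one hsing hγ
        simpa using this
      · intro γ' _ hne
        simp [Finsupp.single_eq_of_ne hne]
      · intro h; exact absurd hγ h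
    · rw [Finset.sum_eq_zero]
      · simp
      · intro γ' hγ'
        have hne : γ' ≠ γ := fun h => hγ (h ▸ hγ')
        simp [Finsupp.single_eq_of_ne hne]
  · simp

end

end Pool.Agent.Y277.TH
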