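import Pool.Agent.Y277.TH.Sp

set_option autoImplicit false

namespace Pool.Agent.Y277.TH

open Finset Filter Topology

section

variable {Γ : Type} [DecidableEq Γ] {ℱ : Set (Finset Γ)}

/-- the embedding of the Hilbert space as the kernel -/
theorem psi_bdd (y : H2 Γ) (i : Idx ℱ) : |∑ γ ∈ i.F, y γ * i.w γ| ≤ ‖y‖ := by
  refine abs_le_of_sq_le_sq ?_ (norm_nonneg _)
  refine (Finset.sum_mul_sq_le_sq_mul_sq i.F _ _).trans ?_
  calc (∑ γ ∈ i.F, y γ ^ 2) * ∑ γ ∈ i.F, i.w γ ^ 2 ≤ ‖y‖ ^ 2 * 1 :=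
        mul_le_mul (h2_sum_le y i.F) i.adm.sq_le (Finset.sum_nonneg fun _ _ => sq_nonneg _)
          (sq_nonneg _)
    _ = ‖y‖ ^ 2 := mul_one _

noncomputable def psi1 (y : H2 Γ) : Z1 ℱ :=
  ⟨fun i => ∑ γ ∈ i.F, y γ * i.w γ, memℓp_infty ⟨‖y‖, by
    rintro r ⟨i, rfl⟩
    exact psi_bdd y i⟩⟩

noncomputable def psi : H2 Γ →L[ℝ] ZZ ℱ :=
  LinearMap.mkContinuous
    { toFun := fun y => (psi1 y, 0)
      map_add' := fun y z => by
        refine Prod.ext ?_ (by simp)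
        ext i
        show ∑ γ ∈ i.F, (y + z) γ * i.w γ = ∑ γ ∈ i.F, y γ * i.w γ + ∑ γ ∈ i.F, z γ * i.w γ
        rw [← Finset.sum_add_distrib]
        refine Finset.sum_congr rfl fun γ _ => ?_
        rw [lp.coeFn_add]
        simp only [Pi.add_apply]
        ring
      map_smul' := fun c y => by
        refine Prod.ext ?_ (by simp)
        ext i
        show ∑ γ ∈ i.F, (c • y) γ * i.w γ = c * ∑ γ ∈ i.F, y γ * i.w γ
        rw [Finset.mul_sum]
        refine Finset.sum_congr rfl fun γ _ => ?_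
        rw [lp.coeFn_smul]
        simp only [Pi.smul_apply, smul_eq_mul]
        ring } 1 fun y => by
    rw [one_mul]
    show ‖(psi1 y, (0 : H2 Γ))‖ ≤ ‖y‖
    rw [Prod.norm_def]
    refine max_le ?_ (by simp)
    exact lp.norm_le_of_forall_le (norm_nonneg _) fun i => psi_bdd y i

theorem psi_fst (y : H2 Γ) (i : Idx ℱ) : (psi (ℱ := ℱ) y).1 i = ∑ γ ∈ i.F, y γ * i.w γ := rfl
theorem psi_snd (y : H2 Γ) : (psi (ℱ := ℱ) y).2 = 0 := rfl

theorem psi_mem (hsing : ∀ γ, {γ} ∈ ℱ) (y : H2 Γ) : psi y ∈ XX hsing := by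
  have h1 : HasSum (fun γ => lp.single 2 γ (y γ : ℝ)) y := lp.hasSum_single (by norm_num) y
  have h2 : HasSum (fun γ => psi (ℱ := ℱ) (lp.single 2 γ (y γ : ℝ))) (psi y) :=
    h1.mapL psi
  refine (XX_closed hsing).mem_of_tendsto h2 (Eventually.of_forall fun s => ?_)
  refine Submodule.sum_mem _ fun γ _ => ?_
  have : psi (ℱ := ℱ) (lp.single 2 γ (y γ : ℝ)) = Phi hsing (Finsupp.single γ (y γ), 0) := by
    refine Prod.ext ?_ ?_
    · ext i
      rw [psi_fst, Phi_fst]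
      unfold pr
      refine Finset.sum_congr rfl fun γ' _ => ?_
      by_cases h : γ' = γ
      · subst h; simp
      · rw [lp.single_apply_ne _ _ _ h]
        simp [Finsupp.single_eq_of_ne h]
    · rw [psi_snd]
      ext γ'
      rfl
  rw [this]
  exact Phi_mem hsing _

/-- the quotient map -/
noncomputable def QQ (hsing : ∀ γ, {γ} ∈ ℱ) : (XX hsing) →L[ℝ] H2 Γ :=
  (ContinuousLinearMap.snd ℝ (Z1 ℱ) (H2 Γ)).comp (XX hsing).subtypeL

theorem QQ_apply (hsing : ∀ γ, {γ} ∈ ℱ) (z : XX hsing) : QQ hsing z = z.1.2 := rfl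

instance XX_complete (hsing : ∀ γ, {γ} ∈ ℱ) : CompleteSpace (XX hsing) :=
  (XX_closed hsing).completeSpace_coe

/-- the kernel -/
noncomputable def YY (hsing : ∀ γ, {γ} ∈ ℱ) : Submodule ℝ (XX hsing) :=
  LinearMap.ker (QQ hsing : XX hsing →ₗ[ℝ] H2 Γ)

theorem YY_closed (hsing : ∀ γ, {γ} ∈ ℱ) : IsClosed (YY hsing : Set (XX hsing)) :=
  (QQ hsing).isClosed_ker

noncomputable def psiY (hsing : ∀ γ, {γ} ∈ ℱ) : H2 Γ →L[ℝ] YY hsing :=
  (psi.codRestrict (XX hsing) (psi_mem hsing)).codRestrict (YY hsing) fun y => by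
    rw [YY, LinearMap.mem_ker]
    rfl

theorem psiY_inj (hsing : ∀ γ, {γ} ∈ ℱ) : Function.Injective (psiY hsing) := by
  rw [injective_iff_map_eq_zero]
  intro y hy
  have h1 : psi (ℱ := ℱ) y = 0 := congrArg (fun z : YY hsing => (z : XX hsing).1) hy
  ext γ
  have h2 : cy hsing γ (psi y) = 0 := by rw [h1]; simp
  rw [cy_apply, psi_fst] at h2
  simpa [idx1] using h2

theorem psiY_surj (hsing : ∀ γ, {γ} ∈ ℱ) : Function.Surjective (psiY hsing) := by
  rintro ⟨⟨z, hz⟩, hz2⟩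
  have hz0 : z.2 = 0 := by
    rw [YY, LinearMap.mem_ker] at hz2
    exact hz2
  let y : Γ → ℝ := fun γ => cy hsing γ z
  have hz1 : ∀ i : Idx ℱ, z.1 i = ∑ γ ∈ i.F, y γ * i.w γ := by
    intro i
    rw [XX_formula hsing hz i]
    refine Finset.sum_congr rfl fun γ _ => ?_
    rw [cx_apply, hz0]
    simp [y]
  have hy : ∀ F : Finset Γ, ∑ γ ∈ F, y γ ^ 2 ≤ ‖z‖ ^ 2 := by
    intro F
    have hT0 : 0 ≤ ∑ γ ∈ F, y γ ^ 2 := Finset.sum_nonneg fun _ _ => sq_nonneg _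
    rcases hT0.lt_or_eq with hT | hT
    swap
    · rw [← hT]; positivity
    let T := ∑ γ ∈ F, y γ ^ 2
    have hsT : 0 < Real.sqrt T := Real.sqrt_pos.2 hT
    have hw : ∑ γ ∈ F, (y γ / Real.sqrt T) ^ 2 ≤ 1 := by
      have : ∑ γ ∈ F, (y γ / Real.sqrt T) ^ 2 = T / Real.sqrt T ^ 2 := by
        rw [Finset.sum_div]
        exact Finset.sum_congr rfl fun γ _ => by rw [div_pow]
      rw [this, Real.sq_sqrt hT0]
      exact (div_self hT.ne').le
    obtain ⟨u, hu⟩ := exists_adm hsing F (fun γ => y γ / Real.sqrt T) hw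
    have h1 := cI_le (⟨F, _, u, hu⟩ : Idx ℱ) z
    rw [cI_apply, hz1] at h1
    have h2 : ∑ γ ∈ F, y γ * (y γ / Real.sqrt T) = Real.sqrt T := by
      have : ∑ γ ∈ F, y γ * (y γ / Real.sqrt T) = T / Real.sqrt T := by
        rw [Finset.sum_div]
        exact Finset.sum_congr rfl fun γ _ => by ring
      rw [this, Real.div_sqrt]
    have h3 : Real.sqrt T ≤ ‖z‖ := by
      have h4 : |∑ γ ∈ F, y γ * (y γ / Real.sqrt T)| ≤ ‖z‖ := h1
      rw [h2, abs_of_pos hsT] at h4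
      exact h4
    calc T = Real.sqrt T ^ 2 := (Real.sq_sqrt hT0).symm
      _ ≤ ‖z‖ ^ 2 := pow_le_pow_left₀ hsT.le h3 2
  refine ⟨⟨y, memlp2 y _ hy⟩, ?_⟩
  apply Subtype.ext
  apply Subtype.ext
  refine Prod.ext ?_ ?_
  · ext i
    show ∑ γ ∈ i.F, y γ * i.w γ = z.1 i
    rw [hz1]
  · show (0 : H2 Γ) = z.2
    rw [hz0]

/-- the kernel is a Hilbert space -/
theorem equivY (hsing : ∀ γ, {γ} ∈ ℱ) : Nonempty (YY hsing ≃L[ℝ] H2 Γ) := by
  haveI : CompleteSpace (YY hsing) := (YY_closed hsing).completeSpace_coe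
  have e : H2 Γ ≃L[ℝ] YY hsing := ContinuousLinearEquiv.ofBijective (𝕜 := ℝ) (𝕜' := ℝ)
    (σ := RingHom.id ℝ) (E := H2 Γ) (F := YY hsing) (psiY hsing)
    (LinearMap.ker_eq_bot.2 (psiY_inj hsing)) (LinearMap.range_eq_top.2 (psiY_surj hsing))
  exact ⟨e.symm⟩

/-- pointwise multiplication of a finitely supported function -/
noncomputable def fm (θ : Γ → ℝ) (x : Γ →₀ ℝ) : Γ →₀ ℝ :=
  Finsupp.onFinset x.support (fun γ => θ γ * x γ) fun γ h => by
    rw [Finsupp.mem_support_iff]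
    exact right_ne_zero_of_mul h

omit [DecidableEq Γ] in
theorem fm_apply (θ : Γ → ℝ) (x : Γ →₀ ℝ) (γ : Γ) : fm θ x γ = θ γ * x γ := rfl

/-- lifting of finitely supported vectors -/
theorem exists_lift (hsing : ∀ γ, {γ} ∈ ℱ) (x : Γ →₀ ℝ) (r : ℝ) (hr : 0 ≤ r)
    (hx : ∑ γ ∈ x.support, x γ ^ 2 ≤ r ^ 2) :
    ∃ y : Γ →₀ ℝ, ‖Phi hsing (y, x)‖ ≤ 2 * r := by
  rcases hr.lt_or_eq with hr' | hr'
  swap
  · refine ⟨0, ?_⟩
    have hx0 : x = 0 := by
      ext γ
      by_contra hcon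
      have h1 : γ ∈ x.support := Finsupp.mem_support_iff.2 hcon
      have h2 := Finset.single_le_sum (f := fun γ => x γ ^ 2) (fun _ _ => sq_nonneg _) h1
      have h3 : x γ ^ 2 ≤ 0 := by
        refine h2.trans (hx.trans ?_)
        rw [← hr']; norm_num
      exact hcon (by simpa using pow_eq_zero_iff (two_ne_zero) |>.1 (le_antisymm h3 (sq_nonneg _)))
    rw [hx0, ← hr']
    have : ((0 : Γ →₀ ℝ), (0 : Γ →₀ ℝ)) = 0 := rfl
    rw [this, map_zero]
    simp
  have hw : ∑ γ ∈ x.support, (x γ / r) ^ 2 ≤ 1 := by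
    have : ∑ γ ∈ x.support, (x γ / r) ^ 2 = (∑ γ ∈ x.support, x γ ^ 2) / r ^ 2 := by
      rw [Finset.sum_div]
      exact Finset.sum_congr rfl fun γ _ => by rw [div_pow]
    rw [this, div_le_one (by positivity)]
    exact hx
  obtain ⟨u, hu⟩ := exists_adm hsing x.support (fun γ => x γ / r) hw
  refine ⟨fm u x, Phi_norm_le hsing _ _ _ (by positivity) ?_ ?_⟩
  · intro i
    have h1 := adm_pair hu i.adm (fun γ hγ => by simp [Finsupp.notMem_support_iff.1 hγ])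
    have h2 : pr (fm u x) x i = r * ∑ γ ∈ i.F, (x γ / r * u γ - x γ / r * i.u γ) * i.w γ := by
      unfold pr
      rw [Finset.mul_sum]
      refine Finset.sum_congr rfl fun γ _ => ?_
      rw [fm_apply]
      field_simp
    rw [h2, abs_mul, abs_of_pos hr', mul_comm 2 r]
    exact mul_le_mul_of_nonneg_left h1 hr
  · refine hx.trans ?_
    nlinarith

theorem QQ_surj (hsing : ∀ γ, {γ} ∈ ℱ) : Function.Surjective (QQ hsing) := by
  let f : NormedAddGroupHom (XX hsing) (H2 Γ) :=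
    (QQ hsing : XX hsing →ₗ[ℝ] H2 Γ).toAddMonoidHom.mkNormedAddGroupHom ‖QQ hsing‖
      (fun v => (QQ hsing).le_opNorm v)
  let K0 : AddSubgroup (H2 Γ) :=
    { carrier := {h | ∃ x : Γ →₀ ℝ, Phi2 x = h}
      zero_mem' := ⟨0, by ext γ; rfl⟩
      add_mem' := by
        rintro _ _ ⟨x, rfl⟩ ⟨x', rfl⟩
        exact ⟨x + x', by ext γ; rfl⟩
      neg_mem' := by
        rintro _ ⟨x, rfl⟩
        exact ⟨-x, by ext γ; rfl⟩ }
  have h1 : f.SurjectiveOnWith K0 2 := by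
    rintro _ ⟨x, rfl⟩
    obtain ⟨y, hy⟩ := exists_lift hsing x ‖Phi2 x‖ (norm_nonneg _) (h2_sum_le (Phi2 x) x.support)
    exact ⟨⟨Phi hsing (y, x), Phi_mem hsing _⟩, rfl, hy⟩
  have h2 := controlled_closure_of_complete (f := f) two_pos one_pos h1
  intro h
  have h3 : h ∈ K0.topologicalClosure := by
    have h4 : HasSum (fun γ => lp.single 2 γ (h γ : ℝ)) h := lp.hasSum_single (by norm_num) h
    refine mem_closure_of_tendsto h4 (Eventually.of_forall fun s => ?_)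
    refine AddSubgroup.sum_mem K0 fun γ _ => ?_
    refine ⟨Finsupp.single γ (h γ), ?_⟩
    ext γ'
    show Finsupp.single γ (h γ) γ' = (lp.single 2 γ (h γ : ℝ) : H2 Γ) γ'
    by_cases h' : γ' = γ
    · subst h'; simp
    · rw [lp.single_apply_ne _ _ _ h', Finsupp.single_eq_of_ne h']
  obtain ⟨g, hg, _⟩ := h2 h h3
  exact ⟨g, hg⟩

/-- the quotient is a Hilbert space -/
theorem equivQ (hsing : ∀ γ, {γ} ∈ ℱ) : Nonempty ((XX hsing ⧸ YY hsing) ≃L[ℝ] H2 Γ) := by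
  let e : (XX hsing ⧸ YY hsing) ≃ₗ[ℝ] H2 Γ :=
    (QQ hsing : XX hsing →ₗ[ℝ] H2 Γ).quotKerEquivOfSurjective (QQ_surj hsing)
  have he : ∀ z, e (Submodule.Quotient.mk z) = QQ hsing z := fun z => rfl
  have hc : Continuous e := by
    refine continuous_quot_lift _ ?_
    exact (QQ hsing).continuous
  have hopen : IsOpenMap (QQ hsing) := (QQ hsing).isOpenMap (QQ_surj hsing)
  have hc' : Continuous e.symm := by
    rw [continuous_def]
    intro U hU
    have h1 : e.symm ⁻¹' U = QQ hsing '' ((Submodule.Quotient.mk : XX hsing → _) ⁻¹' U) := by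
      ext h
      constructor
      · intro hh
        obtain ⟨z, hz⟩ := QQ_surj hsing h
        refine ⟨z, ?_, hz⟩
        show Submodule.Quotient.mk z ∈ U
        have : e.symm h = Submodule.Quotient.mk z := by
          rw [LinearEquiv.symm_apply_eq, he, hz]
        rw [← this]; exact hh
      · rintro ⟨z, hz, rfl⟩
        show e.symm (QQ hsing z) ∈ U
        rw [← he z, LinearEquiv.symm_apply_apply]
        exact hz
    rw [h1]
    refine hopen _ (hU.preimage ?_)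
    exact continuous_quot_mk
  exact ⟨{ e with continuous_toFun := hc, continuous_invFun := hc' }⟩

end

end Pool.Agent.Y277.TH
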