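import Pool.Agent.Y277.TH.Sp2

set_option autoImplicit false

namespace Pool.Agent.Y277.TH

open Finset Filter Topology

section

variable {Γ : Type} [DecidableEq Γ] {ℱ : Set (Finset Γ)}

theorem uw_le (hsing : ∀ γ, {γ} ∈ ℱ) (i : Idx ℱ) {γ : Γ} (hγ : γ ∈ i.F) (η : ℝ) (hη : 0 < η) :
    |i.u γ| * |i.w γ| ≤ η + 16 / η ^ 4 * i.w γ ^ 2 := by
  have h := i.adm.w_le hsing hγ
  have h1 := i.uw_le_one hsing hγ
  have hw0 := abs_nonneg (i.w γ)
  rcases le_or_gt |i.w γ| (η ^ 2 / 4) with h2 | h2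
  · -- small case
    have h3 : |i.u γ| ≤ 2 * Real.exp (|i.u γ| / 2) := by
      have := Real.add_one_le_exp (|i.u γ| / 2)
      linarith
    have h4 : (|i.u γ| * |i.w γ|) ^ 2 ≤ η ^ 2 := by
      have h5 : (Real.exp (|i.u γ| / 2)) ^ 2 = Real.exp |i.u γ| := by
        rw [← Real.exp_nat_mul]
        congr 1
        push_cast
        ring
      have h6 : |i.u γ| ^ 2 ≤ 4 * Real.exp |i.u γ| := by
        have := pow_le_pow_left₀ (abs_nonneg _) h3 2
        rw [mul_pow, h5] at this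
        linarith
      calc (|i.u γ| * |i.w γ|) ^ 2 = |i.u γ| ^ 2 * |i.w γ| ^ 2 := by ring
        _ ≤ (4 * Real.exp |i.u γ|) * |i.w γ| ^ 2 :=
            mul_le_mul_of_nonneg_right h6 (sq_nonneg _)
        _ = 4 * (|i.w γ| * Real.exp |i.u γ|) * |i.w γ| := by ring
        _ ≤ 4 * 1 * (η ^ 2 / 4) := by
            refine mul_le_mul (mul_le_mul_of_nonneg_left h (by norm_num)) h2 hw0 (by norm_num)
        _ = η ^ 2 := by ring
    have h7 : |i.u γ| * |i.w γ| ≤ η := by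
      have := abs_le_of_sq_le_sq h4 hη.le
      exact (le_abs_self _).trans this
    have h8 : 0 ≤ 16 / η ^ 4 * i.w γ ^ 2 := by positivity
    linarith
  · have h3 : 1 ≤ 16 / η ^ 4 * i.w γ ^ 2 := by
      rw [← sq_abs (i.w γ)]
      have h4 : (η ^ 2 / 4) ^ 2 ≤ |i.w γ| ^ 2 := pow_le_pow_left₀ (by positivity) h2.le 2
      calc (1 : ℝ) = 16 / η ^ 4 * (η ^ 2 / 4) ^ 2 := by field_simp; norm_num
        _ ≤ _ := mul_le_mul_of_nonneg_left h4 (by positivity)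
    linarith

/-- signed sums of the unit vectors -/
theorem norm_signed (hsing : ∀ γ, {γ} ∈ ℱ) (T : Finset Γ) (s : Γ → ℝ) (hs : ∀ γ, |s γ| ≤ 1)
    (η : ℝ) (hη : 0 < η) (hη1 : η ≤ 1) :
    ‖∑ δ ∈ T, s δ • ex hsing δ‖ ≤ η * T.card + 16 / η ^ 4 := by
  have h0 : ∑ δ ∈ T, s δ • ex hsing δ
      = Phi hsing (0, ∑ δ ∈ T, Finsupp.single δ (s δ)) := by
    have : ((0 : Γ →₀ ℝ), ∑ δ ∈ T, Finsupp.single δ (s δ))
        = ∑ δ ∈ T, s δ • ((0 : Γ →₀ ℝ), Finsupp.single δ (1 : ℝ)) := by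
      rw [Prod.ext_iff]
      simp [Prod.fst_sum, Prod.snd_sum]
    rw [this, map_sum]
    refine Finset.sum_congr rfl fun δ _ => ?_
    rw [map_smul]
    rfl
  rw [h0]
  set x : Γ →₀ ℝ := ∑ δ ∈ T, Finsupp.single δ (s δ) with hx
  have hxin : ∀ γ ∈ T, x γ = s γ := by
    intro γ hγ
    rw [hx, Finsupp.finsetSum_apply, Finset.sum_eq_single γ]
    · simp
    · intro δ _ hne
      exact Finsupp.single_eq_of_ne hne.symm
    · intro h; exact absurd hγ h
  have hxout : ∀ γ, γ ∉ T → x γ = 0 := by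
    intro γ hγ
    rw [hx, Finsupp.finsetSum_apply]
    refine Finset.sum_eq_zero fun δ hδ => ?_
    exact Finsupp.single_eq_of_ne (fun h => hγ (h ▸ hδ))
  have hxle : ∀ γ, |x γ| ≤ 1 := by
    intro γ
    by_cases h : γ ∈ T
    · rw [hxin γ h]; exact hs γ
    · rw [hxout γ h]; simp
  have hC : 0 ≤ η * T.card + 16 / η ^ 4 := by positivity
  refine Phi_norm_le hsing _ _ _ hC ?_ ?_
  · intro i
    unfold pr
    have h1 : ∑ γ ∈ i.F, ((0 : Γ →₀ ℝ) γ - x γ * i.u γ) * i.w γ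
        = ∑ γ ∈ i.F ∩ T, ((0 : Γ →₀ ℝ) γ - x γ * i.u γ) * i.w γ := by
      refine (Finset.sum_subset Finset.inter_subset_left ?_).symm
      intro γ h2 h3
      have : γ ∉ T := fun h => h3 (Finset.mem_inter.2 ⟨h2, h⟩)
      rw [hxout γ this]; simp
    rw [h1]
    refine (Finset.abs_sum_le_sum_abs _ _).trans ?_
    calc ∑ γ ∈ i.F ∩ T, |((0 : Γ →₀ ℝ) γ - x γ * i.u γ) * i.w γ|
        ≤ ∑ γ ∈ i.F ∩ T, (η + 16 / η ^ 4 * i.w γ ^ 2) := by
          refine Finset.sum_le_sum fun γ hγ => ?_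
          have h2 := uw_le hsing i (Finset.mem_inter.1 hγ).1 η hη
          have h3 : |((0 : Γ →₀ ℝ) γ - x γ * i.u γ) * i.w γ| = |x γ| * (|i.u γ| * |i.w γ|) := by
            simp only [Finsupp.coe_zero, Pi.zero_apply, zero_sub, abs_mul, abs_neg]
            ring
          rw [h3]
          have h4 : |x γ| * (|i.u γ| * |i.w γ|) ≤ 1 * (|i.u γ| * |i.w γ|) :=
            mul_le_mul_of_nonneg_right (hxle γ) (by positivity)
          linarith
      _ = (i.F ∩ T).card * η + 16 / η ^ 4 * ∑ γ ∈ i.F ∩ T, i.w γ ^ 2 := by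
          rw [Finset.sum_add_distrib, Finset.sum_const, nsmul_eq_mul, Finset.mul_sum]
      _ ≤ T.card * η + 16 / η ^ 4 * 1 := by
          refine add_le_add (mul_le_mul_of_nonneg_right ?_ hη.le)
            (mul_le_mul_of_nonneg_left ?_ (by positivity))
          · exact_mod_cast Finset.card_le_card Finset.inter_subset_right
          · refine le_trans ?_ i.adm.sq_le
            exact Finset.sum_le_sum_of_subset_of_nonneg Finset.inter_subset_left
              fun _ _ _ => sq_nonneg _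
      _ = _ := by ring
  · have h1 : ∑ γ ∈ x.support, x γ ^ 2 ≤ T.card := by
      have hsub : x.support ⊆ T := by
        intro γ hγ
        by_contra hcon
        exact (Finsupp.mem_support_iff.1 hγ) (hxout γ hcon)
      calc ∑ γ ∈ x.support, x γ ^ 2 ≤ ∑ γ ∈ x.support, (1 : ℝ) := by
            refine Finset.sum_le_sum fun γ _ => ?_
            rw [← sq_abs]
            exact pow_le_one₀ (abs_nonneg _) (hxle γ)
        _ = x.support.card := by simp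
        _ ≤ T.card := by exact_mod_cast Finset.card_le_card hsub
    refine h1.trans ?_
    have hN : (0 : ℝ) ≤ T.card := Nat.cast_nonneg _
    have h2 : 4 * (η * T.card) * (16 / η ^ 4) ≤ (η * T.card + 16 / η ^ 4) ^ 2 := by
      nlinarith [sq_nonneg (η * (T.card : ℝ) - 16 / η ^ 4)]
    refine le_trans ?_ h2
    have h3 : 4 * (η * T.card) * (16 / η ^ 4) = T.card * (64 / η ^ 3) := by
      field_simp
      ring
    rw [h3]
    have h4 : (1 : ℝ) ≤ 64 / η ^ 3 := by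
      rw [le_div_iff₀ (by positivity)]
      have : η ^ 3 ≤ 1 := pow_le_one₀ hη.le hη1
      linarith
    nlinarith

noncomputable def exX (hsing : ∀ γ, {γ} ∈ ℱ) (γ : Γ) : XX hsing := ⟨ex hsing γ, Phi_mem hsing _⟩
noncomputable def eyX (hsing : ∀ γ, {γ} ∈ ℱ) (γ : Γ) : XX hsing := ⟨ey hsing γ, Phi_mem hsing _⟩

theorem finite_large (hsing : ∀ γ, {γ} ∈ ℱ) (φ : XX hsing →L[ℝ] ℝ) (ε : ℝ) (hε : 0 < ε) :
    {δ | ε ≤ |φ (exX hsing δ)|}.Finite := by
  by_contra hcon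
  have hinf : {δ | ε ≤ |φ (exX hsing δ)|}.Infinite := hcon
  let M : ℝ := ‖φ‖ + 1
  have hM : 0 < M := by positivity
  let η : ℝ := min 1 (ε / (2 * M))
  have hη : 0 < η := lt_min one_pos (by positivity)
  have hη1 : η ≤ 1 := min_le_left _ _
  have hη2 : M * η ≤ ε / 2 := by
    have : η ≤ ε / (2 * M) := min_le_right _ _
    calc M * η ≤ M * (ε / (2 * M)) := mul_le_mul_of_nonneg_left this hM.le
      _ = ε / 2 := by field_simp
  -- bound on the cardinality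
  obtain ⟨N, hN⟩ := exists_nat_gt (M * (16 / η ^ 4) / (ε / 2))
  obtain ⟨T, hT1, hT2⟩ := hinf.exists_subset_card_eq N
  let s : Γ → ℝ := fun δ => SignType.sign (φ (exX hsing δ))
  have hs : ∀ γ, |s γ| ≤ 1 := by
    intro γ
    show |((SignType.sign (φ (exX hsing γ)) : SignType) : ℝ)| ≤ 1
    rcases lt_trichotomy (φ (exX hsing γ)) 0 with h | h | h
    · rw [sign_neg h]; simp
    · rw [h, sign_zero]; simp
    · rw [sign_pos h]; simp
  have h1 := norm_signed hsing T s hs η hη hη1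
  let v : XX hsing := ∑ δ ∈ T, s δ • exX hsing δ
  have hv : ‖v‖ ≤ η * T.card + 16 / η ^ 4 := by
    have : (v : ZZ ℱ) = ∑ δ ∈ T, s δ • ex hsing δ := by
      simp [v, exX]
    show ‖(v : ZZ ℱ)‖ ≤ _
    rw [this]
    exact h1
  have hφ : φ v = ∑ δ ∈ T, |φ (exX hsing δ)| := by
    simp only [v, map_sum, map_smul, smul_eq_mul]
    refine Finset.sum_congr rfl fun δ _ => ?_
    exact sign_mul_self _
  have h2 : ε * N ≤ φ v := by
    rw [hφ, ← hT2]
    calc ε * T.card = ∑ δ ∈ T, ε := by rw [Finset.sum_const, nsmul_eq_mul, mul_comm]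
      _ ≤ _ := Finset.sum_le_sum fun δ hδ => hT1 hδ
  have h3 : φ v ≤ M * (η * T.card + 16 / η ^ 4) := by
    calc φ v ≤ |φ v| := le_abs_self _
      _ ≤ ‖φ‖ * ‖v‖ := φ.le_opNorm v
      _ ≤ M * (η * T.card + 16 / η ^ 4) := by
          refine mul_le_mul ?_ hv (norm_nonneg _) hM.le
          show ‖φ‖ ≤ ‖φ‖ + 1
          linarith
  rw [hT2] at h3
  have h4 : (ε / 2) * N ≤ M * (16 / η ^ 4) := by
    have hN0 : (0 : ℝ) ≤ N := Nat.cast_nonneg _
    nlinarith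
  rw [div_lt_iff₀ (by positivity)] at hN
  linarith

theorem countable_functional (hsing : ∀ γ, {γ} ∈ ℱ) (φ : XX hsing →L[ℝ] ℝ) :
    {δ | φ (exX hsing δ) ≠ 0}.Countable := by
  have h1 : {δ | φ (exX hsing δ) ≠ 0} ⊆ ⋃ n : ℕ, {δ | 1 / ((n : ℝ) + 1) ≤ |φ (exX hsing δ)|} := by
    intro δ hδ
    have h2 : 0 < |φ (exX hsing δ)| := abs_pos.2 hδ
    obtain ⟨n, hn⟩ := exists_nat_one_div_lt h2
    exact Set.mem_iUnion.2 ⟨n, hn.le⟩
  refine Set.Countable.mono h1 (Set.countable_iUnion fun n => ?_)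
  exact (finite_large hsing φ _ (by positivity)).countable

theorem exists_approx (hsing : ∀ γ, {γ} ∈ ℱ) (z : XX hsing) (ε : ℝ) (hε : 0 < ε) :
    ∃ p, ‖(z : ZZ ℱ) - Phi hsing p‖ < ε := by
  have h1 : (z : ZZ ℱ) ∈ closure ((LinearMap.range (Phi hsing) : Submodule ℝ (ZZ ℱ)) : Set (ZZ ℱ)) :=
    z.2
  obtain ⟨_, ⟨p, rfl⟩, hp⟩ := Metric.mem_closure_iff.1 h1 ε hε
  exact ⟨p, by rwa [← dist_eq_norm]⟩

theorem countable_support (hsing : ∀ γ, {γ} ∈ ℱ) (z : XX hsing) :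
    {γ | cx hsing γ z ≠ 0 ∨ cy hsing γ z ≠ 0}.Countable := by
  have h1 : ∀ n : ℕ, ∃ p, ‖(z : ZZ ℱ) - Phi hsing p‖ < 1 / ((n : ℝ) + 1) := fun n =>
    exists_approx hsing z _ (by positivity)
  choose p hp using h1
  refine Set.Countable.mono (s₂ := ⋃ n, ((p n).1.support ∪ (p n).2.support : Finset Γ)) ?_
    (Set.countable_iUnion fun n => Finset.countable_toSet _)
  intro γ hγ
  by_contra hcon
  simp only [Set.mem_iUnion, not_exists, Finset.mem_coe, Finset.mem_union, not_or,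
    Finsupp.notMem_support_iff] at hcon
  have h2 : ∀ n : ℕ, |cx hsing γ z| < 1 / ((n : ℝ) + 1) := by
    intro n
    have h3 := cx_le hsing γ ((z : ZZ ℱ) - Phi hsing (p n))
    rw [map_sub, cx_Phi, (hcon n).2, sub_zero] at h3
    exact lt_of_le_of_lt h3 (hp n)
  have h3 : ∀ n : ℕ, |cy hsing γ z| < 1 / ((n : ℝ) + 1) := by
    intro n
    have h3 := cy_le hsing γ ((z : ZZ ℱ) - Phi hsing (p n))
    rw [map_sub, cy_Phi, (hcon n).1, sub_zero] at h3
    exact lt_of_le_of_lt h3 (hp n)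
  have key : ∀ r : ℝ, (∀ n : ℕ, |r| < 1 / ((n : ℝ) + 1)) → r = 0 := by
    intro r hr
    by_contra hne
    obtain ⟨n, hn⟩ := exists_nat_one_div_lt (abs_pos.2 hne)
    exact absurd (hr n) (not_lt.2 hn.le)
  rcases hγ with h | h
  · exact h (key _ h2)
  · exact h (key _ h3)

/-- approximation inside a given support -/
theorem exists_approx_supp (hsing : ∀ γ, {γ} ∈ ℱ) (z : XX hsing) (S : Set Γ)
    (hS : ∀ γ, γ ∉ S → cx hsing γ z = 0 ∧ cy hsing γ z = 0) (ε : ℝ) (hε : 0 < ε) :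
    ∃ p : (Γ →₀ ℝ) × (Γ →₀ ℝ), (∀ γ, γ ∉ S → p.1 γ = 0 ∧ p.2 γ = 0) ∧
      ‖(z : ZZ ℱ) - Phi hsing p‖ ≤ ε := by
  classical
  obtain ⟨p, hp⟩ := exists_approx hsing z ε hε
  let q : (Γ →₀ ℝ) × (Γ →₀ ℝ) := (p.1.filter (· ∈ S), p.2.filter (· ∈ S))
  have hq1 : ∀ γ, q.1 γ = if γ ∈ S then p.1 γ else 0 := fun γ => Finsupp.filter_apply _ _ _
  have hq2 : ∀ γ, q.2 γ = if γ ∈ S then p.2 γ else 0 := fun γ => Finsupp.filter_apply _ _ _
  refine ⟨q, fun γ hγ => ⟨by rw [hq1, if_neg hγ], by rw [hq2, if_neg hγ]⟩, ?_⟩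
  have hmem : (z : ZZ ℱ) - Phi hsing q ∈ XX hsing :=
    Submodule.sub_mem _ z.2 (Phi_mem hsing _)
  have hmem' : (z : ZZ ℱ) - Phi hsing p ∈ XX hsing :=
    Submodule.sub_mem _ z.2 (Phi_mem hsing _)
  have hcy : ∀ γ, cy hsing γ ((z : ZZ ℱ) - Phi hsing q)
      = if γ ∈ S then cy hsing γ ((z : ZZ ℱ) - Phi hsing p) else 0 := by
    intro γ
    rw [map_sub, cy_Phi, hq1, map_sub, cy_Phi]
    split_ifs with h
    · rfl
    · rw [(hS γ h).2]; simp
  have hcx : ∀ γ, cx hsing γ ((z : ZZ ℱ) - Phi hsing q)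
      = if γ ∈ S then cx hsing γ ((z : ZZ ℱ) - Phi hsing p) else 0 := by
    intro γ
    rw [map_sub, cx_Phi, hq2, map_sub, cx_Phi]
    split_ifs with h
    · rfl
    · rw [(hS γ h).1]; simp
  refine XX_norm_le hsing hmem ε hε.le ?_ ?_
  · intro i
    let i' : Idx ℱ := ⟨i.F.filter (· ∈ S), i.w, i.u,
      i.adm.mono (Finset.filter_subset _ _) fun _ _ => le_refl _⟩
    have h1 := cI_le i' ((z : ZZ ℱ) - Phi hsing p)
    rw [cI_apply, XX_formula hsing hmem' i'] at h1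
    have h2 : ∑ γ ∈ i.F, (cy hsing γ ((z : ZZ ℱ) - Phi hsing q)
        - cx hsing γ ((z : ZZ ℱ) - Phi hsing q) * i.u γ) * i.w γ
        = ∑ γ ∈ i.F.filter (· ∈ S), (cy hsing γ ((z : ZZ ℱ) - Phi hsing p)
        - cx hsing γ ((z : ZZ ℱ) - Phi hsing p) * i.u γ) * i.w γ := by
      rw [Finset.sum_filter]
      refine Finset.sum_congr rfl fun γ _ => ?_
      rw [hcy, hcx]
      split_ifs <;> simp
    rw [h2]
    exact h1.trans hp.le
  · intro F
    have h1 : ∑ γ ∈ F, (cx hsing γ ((z : ZZ ℱ) - Phi hsing q)) ^ 2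
        ≤ ∑ γ ∈ F, (cx hsing γ ((z : ZZ ℱ) - Phi hsing p)) ^ 2 := by
      refine Finset.sum_le_sum fun γ _ => ?_
      rw [hcx]
      split_ifs
      · exact le_refl _
      · rw [zero_pow two_ne_zero]; exact sq_nonneg _
    refine h1.trans ?_
    have h2 : ∑ γ ∈ F, (cx hsing γ ((z : ZZ ℱ) - Phi hsing p)) ^ 2
        ≤ ‖((z : ZZ ℱ) - Phi hsing p).2‖ ^ 2 := h2_sum_le ((z : ZZ ℱ) - Phi hsing p).2 F
    have h3 : ‖((z : ZZ ℱ) - Phi hsing p).2‖ ≤ ε := (norm_snd_le _).trans hp.le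
    have h4 : 0 ≤ ‖((z : ZZ ℱ) - Phi hsing p).2‖ := norm_nonneg _
    refine h2.trans ?_
    exact pow_le_pow_left₀ h4 h3 2

/-- the block estimate in the space -/
theorem norm_blocks (hsing : ∀ γ, {γ} ∈ ℱ) (hsub : ∀ E ∈ ℱ, ∀ E', E' ⊆ E → E' ∈ ℱ)
    (hemp : ∅ ∈ ℱ) {ι : Type} [Fintype ι] (S : ι → Finset Γ)
    (hS : Pairwise fun i j => Disjoint (S i) (S j))
    (hm : ∀ E ∈ ℱ, (univ.filter fun i => ¬ Disjoint E (S i)).card ≤ 2)
    (p : ι → (Γ →₀ ℝ) × (Γ →₀ ℝ)) (hp : ∀ i, ∀ γ, γ ∉ S i → (p i).1 γ = 0 ∧ (p i).2 γ = 0) :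
    ‖∑ i, Phi hsing (p i)‖ ≤ 2 * Real.sqrt (∑ i, ‖Phi hsing (p i)‖ ^ 2) := by
  classical
  have h0 : ∑ i, Phi hsing (p i) = Phi hsing (∑ i, (p i).1, ∑ i, (p i).2) := by
    rw [← map_sum]
    congr 1
    rw [Prod.ext_iff]
    simp [Prod.fst_sum, Prod.snd_sum]
  rw [h0]
  have hs3 : Real.sqrt (1 + (2 : ℕ)) ≤ 2 := by
    rw [Real.sqrt_le_left (by norm_num)]
    norm_num
  refine Phi_norm_le hsing _ _ _ (by positivity) ?_ ?_
  · intro i
    have h1 := block_bound hsub hsing hemp S hS 2 (by norm_num) hm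
      (fun j γ => (p j).1 γ) (fun j γ => (p j).2 γ) (fun j γ h => (hp j γ h).1)
      (fun j γ h => (hp j γ h).2) (fun j => ‖Phi hsing (p j)‖) (fun j => norm_nonneg _)
      (fun j F w u hadm => pr_le_norm hsing (p j).1 (p j).2 ⟨F, w, u, hadm⟩)
      (fun j => sum_sq_le_norm hsing (p j).1 (p j).2 (S j)) i.F i.w i.u i.adm
    have h2 : pr (∑ i, (p i).1 : Γ →₀ ℝ) (∑ i, (p i).2 : Γ →₀ ℝ) i
        = ∑ γ ∈ i.F, ((∑ j, (p j).1 γ) - (∑ j, (p j).2 γ) * i.u γ) * i.w γ := by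
      unfold pr
      refine Finset.sum_congr rfl fun γ _ => ?_
      rw [Finsupp.finsetSum_apply, Finsupp.finsetSum_apply]
    rw [h2]
    exact h1.trans (mul_le_mul_of_nonneg_right hs3 (Real.sqrt_nonneg _))
  · have h1 : ∀ F : Finset Γ, ∑ γ ∈ F, (∑ i, (p i).2 : Γ →₀ ℝ) γ ^ 2
        = ∑ i, ∑ γ ∈ F, (p i).2 γ ^ 2 := by
      intro F
      rw [Finset.sum_comm]
      refine Finset.sum_congr rfl fun γ _ => ?_
      rw [Finsupp.finsetSum_apply]
      by_cases h : ∃ i, γ ∈ S i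
      · obtain ⟨i, hi⟩ := h
        have hz : ∀ j, j ≠ i → (p j).2 γ = 0 := by
          intro j hj
          refine (hp j γ ?_).2
          intro hj2
          exact (Finset.disjoint_left.1 (hS hj)) hj2 hi
        rw [Finset.sum_eq_single i (fun j _ hj => hz j hj)
          (fun h => absurd (Finset.mem_univ i) h)]
        rw [Finset.sum_eq_single i (fun j _ hj => by rw [hz j hj]; simp)
          (fun h => absurd (Finset.mem_univ i) h)]
      · push Not at h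
        rw [Finset.sum_eq_zero (fun i _ => (hp i γ (h i)).2),
          Finset.sum_eq_zero (fun i _ => by rw [(hp i γ (h i)).2]; simp)]
        simp
    rw [h1]
    have h2 : ∑ i, ∑ γ ∈ (∑ i, (p i).2 : Γ →₀ ℝ).support, (p i).2 γ ^ 2
        ≤ ∑ i, ‖Phi hsing (p i)‖ ^ 2 :=
      Finset.sum_le_sum fun i _ => sum_sq_le_norm hsing (p i).1 (p i).2 _
    refine h2.trans ?_
    rw [mul_pow, Real.sq_sqrt (Finset.sum_nonneg fun _ _ => sq_nonneg _)]
    have : 0 ≤ ∑ i, ‖Phi hsing (p i)‖ ^ 2 := Finset.sum_nonneg fun _ _ => sq_nonneg _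
    linarith

end

end Pool.Agent.Y277.TH
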